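import Pool.Agent.Helper76.ND.StC

set_option autoImplicit false

namespace Pool.Agent.Helper42.ND

open Pool.Agent.Helper76.ND Finset

/-- the offsets inside a block -/
theorem sum_off (θ b : ℕ) (g : ℕ → ℝ) (hg : ∀ o, 0 ≤ g o) :
    ∑ B ∈ range (θ + 1), (if θ < B + b then g (B + b - θ) else 0) ≤ ∑ o ∈ Icc 1 b, g o := by
  rw [← Finset.sum_filter]
  have h1 : ∑ B ∈ (range (θ + 1)).filter (fun B => θ < B + b), g (B + b - θ) =
      ∑ o ∈ ((range (θ + 1)).filter (fun B => θ < B + b)).image (fun B => B + b - θ), g o := by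
    rw [Finset.sum_image]
    intro x hx y hy hxy
    have hx' := (Finset.mem_filter.1 (Finset.mem_coe.1 hx)).2
    have hy' := (Finset.mem_filter.1 (Finset.mem_coe.1 hy)).2
    simp only at hxy
    omega
  rw [h1]
  apply Finset.sum_le_sum_of_subset_of_nonneg
  · intro o ho
    obtain ⟨B, hB, rfl⟩ := Finset.mem_image.1 ho
    obtain ⟨h2, h3⟩ := Finset.mem_filter.1 hB
    rw [Finset.mem_range] at h2
    rw [Finset.mem_Icc]
    omega
  · intro o _ _
    exact hg o

/-- the renewal bound for any number of terms -/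
theorem ren_le (hCv : StCv) (hRen : StRen) (J B : ℕ) :
    ∑ j ∈ range J, qs (3 * j) B ≤ 1 / 6 + (1 / 2 : ℝ) ^ B := by
  refine le_trans ?_ (hRen B)
  have h1 : ∑ j ∈ range J, qs (3 * j) B ≤ ∑ j ∈ range (max J (B + 1)), qs (3 * j) B := by
    apply Finset.sum_le_sum_of_subset_of_nonneg
    · exact Finset.range_mono (le_max_left _ _)
    · intro j _ _
      exact qs_nonneg _ _
  refine h1.trans (le_of_eq ?_)
  symm
  apply Finset.sum_subset (Finset.range_mono (le_max_right _ _))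
  intro j _ hj
  rw [Finset.mem_range] at hj
  exact hCv.2.2.2 _ _ (by omega)

/-- the good case -/
theorem good_case (hLz : StLz) (V : ℕ → ℕ → ℝ)
    (hV : ∀ (σ : ℤ) (b o : ℕ), Odd σ → b ∈ Icc 3 12 → o ∈ Icc 1 b → fb b (Xi σ b o) ≤ V b o)
    (K n Tt : ℕ) (s c : ℤ) (X : ℕ → ℝ) (hs : Odd s) (hc : |(c : ℝ)| ≤ 1 / 10 ^ 15 * 3 ^ n)
    (hp : ∀ p : ℕ, p ≤ Tt + K + 5 → ∃ m : ℤ,
      X p = s * (2 : ℝ) ^ ((Tt : ℤ) + 3 - p) + c * (2 : ℝ) ^ (3 - (p : ℤ)) / 3 ^ n + m)
    (j B b : ℕ) (hB : B ≤ Tt + 4) (hb : b ∈ Icc 3 12) (hbK : b ≤ K) (hθ : Tt + 4 < B + b)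
    (hgood : 27 ^ j ≤ 10 ^ 8 * 2 ^ B) :
    fb b (sh j B X) ≤ V b (B + b - (Tt + 4)) + 1 / 10000 := by
  have hσ : Odd (27 ^ j * s) := (Odd.pow (by decide)).mul hs
  have ho : B + b - (Tt + 4) ∈ Icc 1 b := by
    rw [Finset.mem_Icc]; omega
  have h1 := hV (27 ^ j * s) b (B + b - (Tt + 4)) hσ hb ho
  have h3n : (0 : ℝ) < 3 ^ n := by positivity
  have h2 := hLz b (sh j B X) (Xi (27 ^ j * s) b (B + b - (Tt + 4))) (4 / 10 ^ 7) (by positivity) (by
    intro p hpI
    rw [Finset.mem_Icc] at hpI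
    obtain ⟨m, hm⟩ := hp (B + p) (by omega)
    refine ⟨27 ^ j * m, ?_⟩
    have e1 : ((b : ℤ) - ((B + b - (Tt + 4) : ℕ) : ℤ) - 1 - p) = (Tt : ℤ) + 3 - ((B + p : ℕ) : ℤ) := by
      push_cast [Nat.cast_sub hθ.le]
      ring
    have e2 : sh j B X p - Xi (27 ^ j * s) b (B + b - (Tt + 4)) p - ((27 ^ j * m : ℤ) : ℝ) =
        27 ^ j * (c * (2 : ℝ) ^ (3 - ((B + p : ℕ) : ℤ)) / 3 ^ n) := by
      simp only [sh, Xi]
      rw [e1, hm]
      push_cast
      ring
    rw [e2, abs_mul, abs_div, abs_mul, abs_of_pos h3n, abs_of_pos (by positivity : (0 : ℝ) < 27 ^ j),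
      abs_of_pos (by positivity : (0 : ℝ) < (2 : ℝ) ^ (3 - ((B + p : ℕ) : ℤ)))]
    have h4 : (2 : ℝ) ^ (3 - ((B + p : ℕ) : ℤ)) ≤ 4 / 2 ^ B := by
      have : (2 : ℝ) ^ (3 - ((B + p : ℕ) : ℤ)) ≤ 2 ^ ((2 : ℤ) - (B : ℤ)) :=
        zpow_le_zpow_right₀ (by norm_num) (by push_cast; omega)
      refine this.trans (le_of_eq ?_)
      rw [zpow_sub₀ (by norm_num), zpow_natCast]
      norm_num
    have hg' : (27 : ℝ) ^ j ≤ 10 ^ 8 * 2 ^ B := by exact_mod_cast hgood
    have h2B : (0 : ℝ) < 2 ^ B := by positivity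
    have h5 : |(c : ℝ)| * (2 : ℝ) ^ (3 - ((B + p : ℕ) : ℤ)) / 3 ^ n ≤ 1 / 10 ^ 15 * (4 / 2 ^ B) := by
      rw [div_le_iff₀ h3n]
      calc |(c : ℝ)| * (2 : ℝ) ^ (3 - ((B + p : ℕ) : ℤ)) ≤ (1 / 10 ^ 15 * 3 ^ n) * (4 / 2 ^ B) :=
            mul_le_mul hc h4 (by positivity) (by positivity)
        _ = _ := by ring
    calc (27 : ℝ) ^ j * (|(c : ℝ)| * (2 : ℝ) ^ (3 - ((B + p : ℕ) : ℤ)) / 3 ^ n) ≤
          (10 ^ 8 * 2 ^ B) * (1 / 10 ^ 15 * (4 / 2 ^ B)) :=
          mul_le_mul hg' h5 (by positivity) (by positivity)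
      _ = 4 / 10 ^ 7 := by field_simp)
  have h6 : 16 * Real.pi * (4 / 10 ^ 7) ≤ 1 / 10000 := by
    have := Real.pi_lt_four
    linarith
  linarith

theorem hBb (hPb : StPb) (hCv : StCv) (hRen : StRen) (hLz : StLz) (hRu : StRu) (hNu : StNu)
    (hBz : StBz) (hBt : StBt) : StBb := by
  obtain ⟨V, hV0, hV, hVn⟩ := hNu
  obtain ⟨pb1, pb2, -, -, -, -, -, -⟩ := hPb
  refine ⟨1 / 10 ^ 15, 200, by norm_num, by norm_num, ?_⟩
  intro K n k J Tt s c R X hs hc hT hJ hR hp hPsi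
  have hrun := hRu K k J (Tt + 4) X hJ
  refine hrun.trans (add_le_add ?_ le_rfl)
  -- the weights
  set θ := Tt + 4 with hθ
  set gv : ℕ → ℕ → ℝ := fun b o => if b ≤ 12 then V b o + 1 / 10000 else 1 with hgv
  have hgv0 : ∀ b o, 0 ≤ gv b o := by
    intro b o
    simp only [hgv]
    split_ifs
    · have := hV0 b o; linarith
    · norm_num
  set bad : ℕ → ℝ := fun B => ∑ j ∈ range J, (if 10 ^ 8 * 2 ^ B < 27 ^ j then qs (3 * j) B else 0)
    with hbad
  have hbad0 : ∀ B, 0 ≤ bad B := by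
    intro B
    apply Finset.sum_nonneg
    intro j _
    split_ifs
    · exact qs_nonneg _ _
    · exact le_rfl
  -- claim A
  have hA : ∀ B ∈ range (θ + 1), ∀ b ∈ Icc 3 K, θ < B + b →
      ∑ j ∈ range J, qs (3 * j) B * fb b (sh j B X) ≤
        1 / 6 * gv b (B + b - θ) + (1 / 2 : ℝ) ^ B + bad B := by
    intro B hB b hb hlt
    rw [Finset.mem_range] at hB
    rw [Finset.mem_Icc] at hb
    set v := min 1 (gv b (B + b - θ)) with hv
    have hv0 : 0 ≤ v := le_min zero_le_one (hgv0 _ _)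
    have h1 : ∀ j ∈ range J, qs (3 * j) B * fb b (sh j B X) ≤
        qs (3 * j) B * v + (if 10 ^ 8 * 2 ^ B < 27 ^ j then qs (3 * j) B else 0) := by
      intro j _
      have hq := qs_nonneg (3 * j) B
      have hf1 := pb1 b (sh j B X)
      split_ifs with hbd
      · have : qs (3 * j) B * fb b (sh j B X) ≤ qs (3 * j) B * 1 := mul_le_mul_of_nonneg_left hf1 hq
        nlinarith [mul_nonneg hq hv0]
      · rw [add_zero]
        apply mul_le_mul_of_nonneg_left _ hq
        apply le_min hf1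
        simp only [hgv]
        split_ifs with hb12
        · exact good_case hLz V hV K n Tt s c X hs hc hp j B b (by omega)
            (Finset.mem_Icc.2 ⟨hb.1, hb12⟩) hb.2 hlt (not_lt.1 hbd)
        · exact hf1
    calc ∑ j ∈ range J, qs (3 * j) B * fb b (sh j B X)
        ≤ ∑ j ∈ range J, (qs (3 * j) B * v + (if 10 ^ 8 * 2 ^ B < 27 ^ j then qs (3 * j) B else 0)) :=
          Finset.sum_le_sum h1
      _ = (∑ j ∈ range J, qs (3 * j) B) * v + bad B := by
          rw [Finset.sum_add_distrib, Finset.sum_mul]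
      _ ≤ (1 / 6 + (1 / 2 : ℝ) ^ B) * v + bad B := by
          have := mul_le_mul_of_nonneg_right (ren_le hCv hRen J B) hv0
          linarith
      _ ≤ _ := by
          have h2 : v ≤ gv b (B + b - θ) := min_le_right _ _
          have h3 : v ≤ 1 := min_le_left _ _
          have h4 : (0 : ℝ) ≤ (1 / 2 : ℝ) ^ B := by positivity
          nlinarith
  -- reduction to the sum without Psi
  have hred : ∑ j ∈ range J, ∑ B ∈ range (θ + 1), qs (3 * j) B *
      ∑ b ∈ (Icc 3 K).filter (fun b => θ < B + b),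
        P3 b * (fb b (sh j B X) * Psi K (k - j - 1) (sh (j + 1) (B + b) X)) ≤
      R * ∑ B ∈ range (θ + 1), ∑ b ∈ (Icc 3 K).filter (fun b => θ < B + b),
        P3 b * ∑ j ∈ range J, qs (3 * j) B * fb b (sh j B X) := by
    have e1 : R * ∑ B ∈ range (θ + 1), ∑ b ∈ (Icc 3 K).filter (fun b => θ < B + b),
        P3 b * ∑ j ∈ range J, qs (3 * j) B * fb b (sh j B X) =
        ∑ j ∈ range J, ∑ B ∈ range (θ + 1), qs (3 * j) B *
        ∑ b ∈ (Icc 3 K).filter (fun b => θ < B + b), P3 b * (fb b (sh j B X) * R) := by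
      conv_rhs => rw [Finset.sum_comm]
      rw [Finset.mul_sum]
      apply Finset.sum_congr rfl
      intro B _
      have e2 : ∀ b, P3 b * ∑ j ∈ range J, qs (3 * j) B * fb b (sh j B X) =
          ∑ j ∈ range J, qs (3 * j) B * (P3 b * fb b (sh j B X)) := by
        intro b
        rw [Finset.mul_sum]
        apply Finset.sum_congr rfl
        intro j _
        ring
      simp only [e2]
      rw [Finset.sum_comm, Finset.mul_sum]
      apply Finset.sum_congr rfl
      intro j _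
      rw [← Finset.mul_sum, mul_left_comm]
      congr 1
      rw [Finset.mul_sum]
      apply Finset.sum_congr rfl
      intro b _
      ring
    rw [e1]
    apply Finset.sum_le_sum
    intro j hj
    apply Finset.sum_le_sum
    intro B _
    apply mul_le_mul_of_nonneg_left _ (qs_nonneg _ _)
    apply Finset.sum_le_sum
    intro b _
    apply mul_le_mul_of_nonneg_left _ (P3_nonneg _)
    exact mul_le_mul_of_nonneg_left (hPsi j (Finset.mem_range.1 hj) _) (fb_nonneg _ _)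
  refine hred.trans ?_
  rw [mul_comm (83 / 200 : ℝ) R]
  apply mul_le_mul_of_nonneg_left _ hR
  -- the main sum
  have hmain : ∑ B ∈ range (θ + 1), ∑ b ∈ (Icc 3 K).filter (fun b => θ < B + b),
        P3 b * ∑ j ∈ range J, qs (3 * j) B * fb b (sh j B X) ≤
      ∑ B ∈ range (θ + 1), ∑ b ∈ (Icc 3 K).filter (fun b => θ < B + b),
        (P3 b * (1 / 6 * gv b (B + b - θ)) + (1 / 2 : ℝ) ^ B * P3 b + bad B * P3 b) := by
    apply Finset.sum_le_sum
    intro B hB
    apply Finset.sum_le_sum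
    intro b hb
    obtain ⟨hb1, hb2⟩ := Finset.mem_filter.1 hb
    have := mul_le_mul_of_nonneg_left (hA B hB b hb1 hb2) (P3_nonneg b)
    linarith
  refine hmain.trans ?_
  simp only [Finset.sum_add_distrib]
  -- part 1
  have hP1 : ∑ B ∈ range (θ + 1), ∑ b ∈ (Icc 3 K).filter (fun b => θ < B + b),
      P3 b * (1 / 6 * gv b (B + b - θ)) ≤ 41 / 100 + 1 / 10000 := by
    have e1 : ∑ B ∈ range (θ + 1), ∑ b ∈ (Icc 3 K).filter (fun b => θ < B + b),
        P3 b * (1 / 6 * gv b (B + b - θ)) =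
        ∑ b ∈ Icc 3 K, P3 b / 6 * ∑ B ∈ range (θ + 1),
          (if θ < B + b then gv b (B + b - θ) else 0) := by
      simp only [Finset.sum_filter]
      rw [Finset.sum_comm]
      apply Finset.sum_congr rfl
      intro b _
      rw [Finset.mul_sum]
      apply Finset.sum_congr rfl
      intro B _
      split_ifs <;> ring
    rw [e1]
    have h1 : ∑ b ∈ Icc 3 K, P3 b / 6 * ∑ B ∈ range (θ + 1),
          (if θ < B + b then gv b (B + b - θ) else 0) ≤
        ∑ b ∈ Icc 3 K, P3 b / 6 * ∑ o ∈ Icc 1 b, gv b o := by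
      apply Finset.sum_le_sum
      intro b _
      apply mul_le_mul_of_nonneg_left (sum_off θ b (gv b) (hgv0 b))
      have := P3_nonneg b
      positivity
    refine h1.trans ?_
    rw [← Finset.sum_filter_add_sum_filter_not (Icc 3 K) (fun b => b ≤ 12)]
    have h2 : ∑ b ∈ (Icc 3 K).filter (fun b => b ≤ 12), P3 b / 6 * ∑ o ∈ Icc 1 b, gv b o ≤
        ∑ b ∈ Icc 3 12, P3 b / 6 * ∑ o ∈ Icc 1 b, (V b o + 1 / 10000) := by
      have e2 : ∑ b ∈ (Icc 3 K).filter (fun b => b ≤ 12), P3 b / 6 * ∑ o ∈ Icc 1 b, gv b o =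
          ∑ b ∈ (Icc 3 K).filter (fun b => b ≤ 12), P3 b / 6 * ∑ o ∈ Icc 1 b, (V b o + 1 / 10000) := by
        apply Finset.sum_congr rfl
        intro b hb
        have hb12 := (Finset.mem_filter.1 hb).2
        simp only [hgv, if_pos hb12]
      rw [e2]
      apply Finset.sum_le_sum_of_subset_of_nonneg
      · intro b hb
        obtain ⟨hb1, hb2⟩ := Finset.mem_filter.1 hb
        rw [Finset.mem_Icc] at hb1 ⊢
        exact ⟨hb1.1, hb2⟩
      · intro b _ _
        apply mul_nonneg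
        · have := P3_nonneg b; positivity
        · apply Finset.sum_nonneg
          intro o _
          have := hV0 b o
          linarith
    have h3 : ∑ b ∈ (Icc 3 K).filter (fun b => ¬ b ≤ 12), P3 b / 6 * ∑ o ∈ Icc 1 b, gv b o ≤
        1 / 6 * ∑ b ∈ Icc (13 : ℕ) K, (b : ℝ) * P3 b := by
      have e3 : (Icc 3 K).filter (fun b => ¬ b ≤ 12) = Icc 13 K := by
        ext b
        rw [Finset.mem_filter, Finset.mem_Icc, Finset.mem_Icc]
        omega
      rw [e3, Finset.mul_sum]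
      apply Finset.sum_le_sum
      intro b hb
      rw [Finset.mem_Icc] at hb
      have hb12 : ¬ b ≤ 12 := by omega
      simp only [hgv, if_neg hb12, Finset.sum_const, Nat.card_Icc, nsmul_eq_mul, mul_one]
      apply le_of_eq
      have : b + 1 - 1 = b := by omega
      rw [this]
      ring
    have h4 := hBt.2 K
    have h5 := hBt.2 12
    have h6 : ∑ b ∈ Icc (13 : ℕ) 12, (b : ℝ) * P3 b = 0 := by
      rw [Finset.Icc_eq_empty (by norm_num), Finset.sum_empty]
    rw [h6] at h5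
    have e4 : ∑ b ∈ Icc 3 12, P3 b / 6 * ∑ o ∈ Icc 1 b, (V b o + 1 / 10000) =
        ∑ b ∈ Icc 3 12, ∑ o ∈ Icc 1 b, P3 b / 6 * V b o +
        1 / 60000 * ∑ b ∈ Icc (3 : ℕ) 12, (b : ℝ) * P3 b := by
      rw [Finset.mul_sum, ← Finset.sum_add_distrib]
      apply Finset.sum_congr rfl
      intro b _
      rw [Finset.sum_add_distrib, mul_add, Finset.mul_sum]
      congr 1
      simp only [Finset.sum_const, Nat.card_Icc, nsmul_eq_mul]
      have : b + 1 - 1 = b := by omega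
      rw [this]
      ring
    have e5 : ∑ b ∈ Icc (3 : ℕ) 12, (b : ℝ) * P3 b / 6 = 1 / 6 * ∑ b ∈ Icc (3 : ℕ) 12, (b : ℝ) * P3 b := by
      rw [Finset.mul_sum]
      apply Finset.sum_congr rfl
      intro b _
      ring
    rw [e5] at hVn
    rw [e4] at h2
    linarith
  -- part 2
  have hP2 : ∑ B ∈ range (θ + 1), ∑ b ∈ (Icc 3 K).filter (fun b => θ < B + b),
      (1 / 2 : ℝ) ^ B * P3 b ≤ 1 / 10000 := by
    have h1 := hBt.1 K θ
    have e1 : ∑ B ∈ range (θ + 1), ∑ b ∈ (Icc 3 K).filter (fun b => θ < B + b),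
      (1 / 2 : ℝ) ^ B * P3 b = ∑ B ∈ range (θ + 1), (1 / 2 : ℝ) ^ B *
        ∑ b ∈ (Icc 3 K).filter (fun b => θ < B + b), P3 b := by
      apply Finset.sum_congr rfl
      intro B _
      rw [Finset.mul_sum]
    rw [e1]
    refine h1.trans ?_
    have h2 : (2 / 3 : ℝ) ^ θ ≤ (2 / 3 : ℝ) ^ 200 :=
      pow_le_pow_of_le_one (by norm_num) (by norm_num) (by omega)
    have h3 : 108 * (2 / 3 : ℝ) ^ 200 ≤ 1 / 10000 := by norm_num
    linarith
  -- part 3
  have hP3 : ∑ B ∈ range (θ + 1), ∑ b ∈ (Icc 3 K).filter (fun b => θ < B + b),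
      bad B * P3 b ≤ 7 / 10000 := by
    have h1 : ∑ B ∈ range (θ + 1), ∑ b ∈ (Icc 3 K).filter (fun b => θ < B + b), bad B * P3 b ≤
        ∑ B ∈ range (θ + 1), bad B := by
      apply Finset.sum_le_sum
      intro B _
      rw [← Finset.mul_sum]
      have h2 : ∑ b ∈ (Icc 3 K).filter (fun b => θ < B + b), P3 b ≤ ∑ b ∈ Icc 3 K, P3 b :=
        Finset.sum_le_sum_of_subset_of_nonneg (Finset.filter_subset _ _)
          (fun b _ _ => P3_nonneg b)
      have h3 := pb2 K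
      have := mul_le_mul_of_nonneg_left (h2.trans h3) (hbad0 B)
      linarith
    refine h1.trans ?_
    have h4 := hBz J θ
    rw [Finset.sum_comm] at h4
    exact h4
  linarith

end Pool.Agent.Helper42.ND
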