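import Pool.Agent.Helper76.ND.StC

set_option autoImplicit false

namespace Pool.Agent.Helper42.ND

open Pool.Agent.Helper76.ND Finset

theorem P3_nonneg (b : ℕ) : 0 ≤ P3 b := by
  unfold P3
  positivity

theorem fb_nonneg (b : ℕ) (X : ℕ → ℝ) : 0 ≤ fb b X := by
  unfold fb
  positivity

theorem five_pow : (5 : ℝ) ^ (13 / 25 : ℝ) ≤ 192 / 83 := by
  have h1 : ((5 : ℝ) ^ (13 / 25 : ℝ)) ^ 25 = 5 ^ 13 := by
    rw [← Real.rpow_natCast, ← Real.rpow_mul (by norm_num)]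
    have : (13 / 25 : ℝ) * ((25 : ℕ) : ℝ) = ((13 : ℕ) : ℝ) := by norm_num
    rw [this, Real.rpow_natCast]
  by_contra hc
  push Not at hc
  have h2 : ((192 : ℝ) / 83) ^ 25 < ((5 : ℝ) ^ (13 / 25 : ℝ)) ^ 25 :=
    pow_lt_pow_left₀ hc (by norm_num) (by norm_num)
  rw [h1] at h2
  norm_num at h2

/-- the class of a shifted and multiplied sequence -/
theorem cls_sh (h8 : ∀ (n b : ℕ) (X : ℕ → ℝ), Cls (n + 3) X → Cls n (fun a => 27 * X (b + a)))
    (j : ℕ) : ∀ (n B : ℕ) (X : ℕ → ℝ), Cls (n + 3 * j) X → Cls n (sh j B X) := by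
  induction j with
  | zero =>
    intro n B X h
    have : sh 0 B X = fun a => X (B + a) := by
      funext a
      simp [sh]
    rw [this]
    intro i
    obtain ⟨h1, h2⟩ := h (B + i)
    refine ⟨h1, ?_⟩
    have : B + (i + 1) = B + i + 1 := by ring
    simp only [this]
    exact h2
  | succ j ih =>
    intro n B X h
    have h1 : Cls (n + 3) (sh j B X) := ih (n + 3) B X (by
      have : n + 3 + 3 * j = n + 3 * (j + 1) := by ring
      rw [this]; exact h)
    have h2 := h8 n 0 _ h1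
    have : sh (j + 1) B X = fun a => 27 * sh j B X (0 + a) := by
      funext a
      simp only [sh, zero_add, pow_succ]
      ring
    rw [this]
    exact h2

theorem one_step (δ : ℝ) (hδ : 0 < δ) (x : ℝ) (hx : 1 ≤ x) (hd : 1 / δ ≤ x + 1) :
    (1 - δ) * x ^ (-(13 / 25) : ℝ) ≤ (x + 1) ^ (-(13 / 25) : ℝ) := by
  have hx0 : 0 < x := by linarith
  have hx1 : 0 < x + 1 := by linarith
  have h1 : (x + 1) ^ (-(13 / 25) : ℝ) = x ^ (-(13 / 25) : ℝ) * (x / (x + 1)) ^ (13 / 25 : ℝ) := by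
    rw [Real.div_rpow hx0.le hx1.le, Real.rpow_neg hx0.le, Real.rpow_neg hx1.le]
    have : x ^ (13 / 25 : ℝ) ≠ 0 := (Real.rpow_pos_of_pos hx0 _).ne'
    field_simp
  have h2 : x / (x + 1) ≤ (x / (x + 1)) ^ (13 / 25 : ℝ) := by
    have hle : x / (x + 1) ≤ 1 := by rw [div_le_one hx1]; linarith
    calc x / (x + 1) = (x / (x + 1)) ^ (1 : ℝ) := (Real.rpow_one _).symm
      _ ≤ _ := Real.rpow_le_rpow_of_exponent_ge (by positivity) hle (by norm_num)
  have h3 : 1 - δ ≤ x / (x + 1) := by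
    rw [div_le_iff₀ hδ] at hd
    rw [le_div_iff₀ hx1]
    nlinarith
  rw [h1, mul_comm]
  exact mul_le_mul_of_nonneg_left (h3.trans h2) (Real.rpow_nonneg hx0.le _)

theorem hF (hPb : StPb) (hWh : StWh) (hSm : StSm) (hBk : StBk) (hBb : StBb) (hEx : StEx) : StF := by
  obtain ⟨pb1, pb2, pb3, pb4, pb5, pb6, pb7, pb8⟩ := hPb
  obtain ⟨ε1, T0, hε1, hε1', hBb'⟩ := hBb
  obtain ⟨ε2, δ2, hε2, hδ2, hSm'⟩ := hSm T0
  obtain ⟨ε, hεdef⟩ : ∃ ε, ε = min ε1 (ε2 / 4) := ⟨_, rfl⟩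
  have hε : 0 < ε := by rw [hεdef]; exact lt_min hε1 (by linarith)
  have hεa : ε ≤ ε1 := by rw [hεdef]; exact min_le_left _ _
  have hεb : ε ≤ ε2 / 4 := by rw [hεdef]; exact min_le_right _ _
  obtain ⟨δ1, hδ1, hWh'⟩ := hWh ε hε (by linarith)
  obtain ⟨δ, hδdef⟩ : ∃ δ, δ = min δ1 δ2 := ⟨_, rfl⟩
  have hδ : 0 < δ := by rw [hδdef]; exact lt_min hδ1 hδ2
  have hδa : δ ≤ δ1 := by rw [hδdef]; exact min_le_left _ _
  have hδb : δ ≤ δ2 := by rw [hδdef]; exact min_le_right _ _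
  obtain ⟨k0, hk0⟩ := exists_nat_ge (1 / δ)
  obtain ⟨C', hC', hEx'⟩ := hEx
  obtain ⟨C, hCdef⟩ : ∃ C : ℝ, C = max (((k0 : ℝ) + 2) ^ (13 / 25 : ℝ)) (25 * C') := ⟨_, rfl⟩
  have hCa : ((k0 : ℝ) + 2) ^ (13 / 25 : ℝ) ≤ C := by rw [hCdef]; exact le_max_left _ _
  have hCb : 25 * C' ≤ C := by rw [hCdef]; exact le_max_right _ _
  have hC : 0 < C := by linarith
  refine ⟨C, hC, ?_⟩
  intro K k
  induction k using Nat.strong_induction_on with
  | _ k ih =>
  intro n X hn1 hn2 hX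
  by_cases hk : k ≤ k0
  · refine (pb4 K k X).trans ?_
    have hk1 : (0 : ℝ) < (k : ℝ) + 1 := by positivity
    have h1 : ((k : ℝ) + 1) ^ (13 / 25 : ℝ) ≤ C := by
      refine le_trans ?_ hCa
      apply Real.rpow_le_rpow hk1.le _ (by norm_num)
      have : (k : ℝ) ≤ k0 := by exact_mod_cast hk
      linarith
    rw [Real.rpow_neg hk1.le, ← div_eq_mul_inv, le_div_iff₀ (Real.rpow_pos_of_pos hk1 _), one_mul]
    exact h1
  · push Not at hk
    obtain ⟨k', rfl⟩ : ∃ k', k = k' + 1 := ⟨k - 1, by omega⟩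
    -- the one step estimate
    have hstep : ∑ b ∈ Icc 3 K, P3 b * fb b X ≤ 1 - δ →
        Psi K (k' + 1) X ≤ C * (((k' + 1 : ℕ) : ℝ) + 1) ^ (-(13 / 25) : ℝ) := by
      intro hs
      obtain ⟨n', rfl⟩ : ∃ n', n = n' + 3 := ⟨n - 3, by omega⟩
      have h1 : ∀ b, Psi K k' (fun a => 27 * X (b + a)) ≤ C * ((k' : ℝ) + 1) ^ (-(13 / 25) : ℝ) :=
        fun b => ih k' (by omega) n' _ (by omega) (by omega) (pb8 n' b X hX)
      have hw0 : 0 ≤ ((k' : ℝ) + 1) ^ (-(13 / 25) : ℝ) := Real.rpow_nonneg (by positivity) _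
      have h2 : Psi K (k' + 1) X ≤ (∑ b ∈ Icc 3 K, P3 b * fb b X) *
          (C * ((k' : ℝ) + 1) ^ (-(13 / 25) : ℝ)) := by
        rw [Finset.sum_mul]
        show (∑ b ∈ Icc 3 K, P3 b * fb b X * Psi K k' (fun a => 27 * X (b + a))) ≤ _
        apply Finset.sum_le_sum
        intro b _
        exact mul_le_mul_of_nonneg_left (h1 b) (mul_nonneg (P3_nonneg b) (fb_nonneg b X))
      have h3 : (1 - δ) * ((k' : ℝ) + 1) ^ (-(13 / 25) : ℝ) ≤
          ((k' : ℝ) + 1 + 1) ^ (-(13 / 25) : ℝ) := by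
        apply one_step δ hδ
        · have : (0 : ℝ) ≤ k' := Nat.cast_nonneg _
          linarith
        · have : (k0 : ℝ) ≤ ((k' + 1 : ℕ) : ℝ) := by exact_mod_cast hk.le
          push_cast at this
          linarith
      calc Psi K (k' + 1) X ≤ (∑ b ∈ Icc 3 K, P3 b * fb b X) *
          (C * ((k' : ℝ) + 1) ^ (-(13 / 25) : ℝ)) := h2
        _ ≤ (1 - δ) * (C * ((k' : ℝ) + 1) ^ (-(13 / 25) : ℝ)) :=
            mul_le_mul_of_nonneg_right hs (mul_nonneg hC.le hw0)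
        _ = C * ((1 - δ) * ((k' : ℝ) + 1) ^ (-(13 / 25) : ℝ)) := by ring
        _ ≤ C * ((k' : ℝ) + 1 + 1) ^ (-(13 / 25) : ℝ) := mul_le_mul_of_nonneg_left h3 hC.le
        _ = _ := by push_cast; ring
    by_cases hw : ∀ m : ℤ, ε ≤ |X 3 - m|
    · apply hstep
      have := hWh' K X (fun j => (hX j).2) hw
      linarith
    · push Not at hw
      obtain ⟨m, hm⟩ := hw
      obtain ⟨c, s, Tt, hs, hc1, hc2, hp⟩ := hBk n (K + 1) ε X m (by omega) hε (by linarith) hX hm.le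
      have h3n : (0 : ℝ) < 3 ^ n := by positivity
      by_cases hT : Tt < T0
      · apply hstep
        have := hSm' K Tt s X hs hT (fun p hp1 hp2 => by
          obtain ⟨m', hm'⟩ := hp p (by omega)
          refine ⟨m', ?_⟩
          have e : X p - s * (2 : ℝ) ^ ((Tt : ℤ) + 3 - p) - m' = c * (2 : ℝ) ^ (3 - (p : ℤ)) / 3 ^ n := by
            rw [hm']; ring
          rw [e, abs_div, abs_mul, abs_of_pos h3n, div_le_iff₀ h3n]
          have h4 : |(2 : ℝ) ^ (3 - (p : ℤ))| ≤ 4 := by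
            rw [abs_of_pos (by positivity)]
            have : (2 : ℝ) ^ (3 - (p : ℤ)) ≤ 2 ^ (2 : ℤ) :=
              zpow_le_zpow_right₀ (by norm_num) (by omega)
            refine this.trans (by norm_num)
          calc |(c : ℝ)| * |(2 : ℝ) ^ (3 - (p : ℤ))| ≤ (ε * 3 ^ n) * 4 :=
                mul_le_mul hc1 h4 (abs_nonneg _) (by positivity)
            _ ≤ ε2 * 3 ^ n := by nlinarith)
        linarith
      · push Not at hT
        obtain ⟨w, hwdef⟩ : ∃ w : ℝ, w = (((k' + 1 : ℕ) : ℝ) + 1) ^ (-(13 / 25) : ℝ) := ⟨_, rfl⟩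
        have hw0 : 0 ≤ w := by rw [hwdef]; exact Real.rpow_nonneg (by positivity) _
        have hR : ∀ j < 4 * (k' + 1) / 5, ∀ B, Psi K (k' + 1 - j - 1) (sh (j + 1) B X) ≤
            C * (5 : ℝ) ^ (13 / 25 : ℝ) * w := by
          intro j hj B
          have hj5 : 5 * (j + 1) ≤ 4 * (k' + 1) := by omega
          obtain ⟨i, hi⟩ : ∃ i, k' + 1 = i + (j + 1) := ⟨k' + 1 - (j + 1), by omega⟩
          have e1 : k' + 1 - j - 1 = i := by omega
          rw [e1]
          obtain ⟨n', hn'⟩ : ∃ n', n = n' + 3 * (j + 1) := ⟨n - 3 * (j + 1), by omega⟩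
          have h1 := ih i (by omega) n' (sh (j + 1) B X) (by omega) (by omega)
            (cls_sh pb8 (j + 1) n' B X (by rw [← hn']; exact hX))
          refine h1.trans ?_
          rw [mul_assoc]
          apply mul_le_mul_of_nonneg_left _ hC.le
          rw [hwdef]
          have hi0 : (0 : ℝ) < (i : ℝ) + 1 := by positivity
          have hk0' : (0 : ℝ) < ((k' + 1 : ℕ) : ℝ) + 1 := by positivity
          have h5 : (((k' + 1 : ℕ) : ℝ) + 1) / 5 ≤ (i : ℝ) + 1 := by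
            rw [div_le_iff₀ (by norm_num)]
            have : k' + 1 + 1 ≤ (i + 1) * 5 := by omega
            exact_mod_cast this
          have h6 : ((i : ℝ) + 1) ^ (-(13 / 25) : ℝ) ≤
              ((((k' + 1 : ℕ) : ℝ) + 1) / 5) ^ (-(13 / 25) : ℝ) :=
            Real.rpow_le_rpow_of_nonpos (by positivity) h5 (by norm_num)
          refine h6.trans (le_of_eq ?_)
          rw [Real.div_rpow hk0'.le (by norm_num), Real.rpow_neg (by norm_num : (0 : ℝ) ≤ 5)]
          field_simp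
        have h1 := hBb' K n (k' + 1) (4 * (k' + 1) / 5) Tt s c (C * (5 : ℝ) ^ (13 / 25 : ℝ) * w) X hs
          (hc1.trans (mul_le_mul_of_nonneg_right hεa h3n.le)) hT (by omega) (by positivity)
          (fun p hp' => hp p (by omega)) hR
        have h2 := hEx' (k' + 1) Tt (by
          refine hc2.trans (hc1.trans ?_)
          have h7 : (3 : ℝ) ^ n ≤ 3 ^ (3 * (k' + 1) + 2) := pow_le_pow_right₀ (by norm_num) hn2
          have h8 : ε * 3 ^ n ≤ 1 * 3 ^ n := mul_le_mul_of_nonneg_right (by linarith) h3n.le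
          linarith)
        rw [← hwdef] at h2 ⊢
        refine h1.trans ?_
        have h9 : 83 / 200 * (C * (5 : ℝ) ^ (13 / 25 : ℝ) * w) ≤ 96 / 100 * (C * w) := by
          have := mul_le_mul_of_nonneg_left five_pow (mul_nonneg hC.le hw0)
          nlinarith
        have h10 : C' * w ≤ 4 / 100 * (C * w) := by nlinarith
        linarith

end Pool.Agent.Helper42.ND
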