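import Pool.Agent.Helper76.ND.StD

set_option autoImplicit false

namespace Pool.Agent.Helper42.ND

open Pool.Agent.Helper76.ND Finset

/-- the shifted law -/
noncomputable def wi (w : ℕ → ℝ) (i s : ℕ) : ℝ := if i ≤ s then w (s - i) else 0

theorem wi_nonneg (w : ℕ → ℝ) (hw : ∀ j, 0 ≤ w j) (i s : ℕ) : 0 ≤ wi w i s := by
  unfold wi
  split_ifs
  · exact hw _
  · exact le_rfl

/-- reindexing a shifted sum -/
theorem sum_shift (g : ℕ → ℝ) (hg : ∀ j, 0 ≤ g j) (i K : ℕ) :
    ∑ s ∈ range K, (if i ≤ s then g (s - i) else 0) ≤ ∑ s ∈ range K, g s := by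
  rw [← Finset.sum_filter]
  have h1 : ∑ s ∈ (range K).filter (fun s => i ≤ s), g (s - i) =
      ∑ o ∈ ((range K).filter (fun s => i ≤ s)).image (fun s => s - i), g o := by
    rw [Finset.sum_image]
    intro x hx y hy hxy
    have hx' := (Finset.mem_filter.1 (Finset.mem_coe.1 hx)).2
    have hy' := (Finset.mem_filter.1 (Finset.mem_coe.1 hy)).2
    simp only at hxy
    omega
  rw [h1]
  apply Finset.sum_le_sum_of_subset_of_nonneg
  · intro o ho
    obtain ⟨s, hs, rfl⟩ := Finset.mem_image.1 ho
    obtain ⟨h2, h3⟩ := Finset.mem_filter.1 hs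
    rw [Finset.mem_range] at h2 ⊢
    omega
  · intro o _ _
    exact hg o

/-- total variation under shifts -/
theorem tv_shift (w : ℕ → ℝ) (h0 : w 0 = 0) (K : ℕ) (T : ℝ)
    (hT : ∑ s ∈ range K, |w (s + 1) - w s| ≤ T) (i : ℕ) :
    ∀ d : ℕ, ∑ s ∈ range K, |wi w i s - wi w (i + d) s| ≤ d * T := by
  intro d
  induction d with
  | zero => simp
  | succ d ih =>
    have h1 : ∑ s ∈ range K, |wi w (i + d) s - wi w (i + (d + 1)) s| ≤ T := by
      refine le_trans ?_ hT
      have e1 : ∀ s, |wi w (i + d) s - wi w (i + (d + 1)) s| =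
          if i + d + 1 ≤ s then (fun u => |w (u + 1) - w u|) (s - (i + d + 1)) else 0 := by
        intro s
        unfold wi
        rcases Nat.lt_trichotomy s (i + d) with h | h | h
        · rw [if_neg (by omega), if_neg (by omega), if_neg (by omega)]
          simp
        · rw [if_pos (by omega), if_neg (by omega), if_neg (by omega)]
          have : s - (i + d) = 0 := by omega
          rw [this, h0]
          simp
        · rw [if_pos (by omega), if_pos (by omega), if_pos (by omega)]
          have e : s - (i + d) = s - (i + d + 1) + 1 := by omega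
          have e' : s - (i + (d + 1)) = s - (i + d + 1) := by omega
          rw [e, e']
      simp only [e1]
      exact sum_shift (fun u => |w (u + 1) - w u|) (fun _ => abs_nonneg _) (i + d + 1) K
    calc ∑ s ∈ range K, |wi w i s - wi w (i + (d + 1)) s|
        ≤ ∑ s ∈ range K, (|wi w i s - wi w (i + d) s| + |wi w (i + d) s - wi w (i + (d + 1)) s|) := by
          apply Finset.sum_le_sum
          intro s _
          exact abs_sub_le _ _ _
      _ = ∑ s ∈ range K, |wi w i s - wi w (i + d) s| +
          ∑ s ∈ range K, |wi w (i + d) s - wi w (i + (d + 1)) s| := Finset.sum_add_distrib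
      _ ≤ d * T + T := add_le_add ih h1
      _ = ((d + 1 : ℕ) : ℝ) * T := by push_cast; ring

theorem tv_le (w : ℕ → ℝ) (h0 : w 0 = 0) (K : ℕ) (T : ℝ) (hT0 : 0 ≤ T)
    (hT : ∑ s ∈ range K, |w (s + 1) - w s| ≤ T) (L i j : ℕ) (hi : i ≤ L) (hj : j ≤ L) :
    ∑ s ∈ range K, |wi w i s - wi w j s| ≤ L * T := by
  rcases le_total i j with h | h
  · have := tv_shift w h0 K T hT i (j - i)
    rw [show i + (j - i) = j by omega] at this
    refine this.trans (mul_le_mul_of_nonneg_right ?_ hT0)
    exact_mod_cast (by omega : j - i ≤ L)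
  · have := tv_shift w h0 K T hT j (i - j)
    rw [show j + (i - j) = i by omega] at this
    simp only [abs_sub_comm (wi w i _)]
    refine this.trans (mul_le_mul_of_nonneg_right ?_ hT0)
    exact_mod_cast (by omega : i - j ≤ L)

/-- extension of a convolution to a larger range -/
theorem conv_ext (w N : ℕ → ℝ) (s T : ℕ) (hT : s + 1 ≤ T) :
    ∑ i ∈ range (s + 1), N i * w (s - i) = ∑ i ∈ range T, N i * wi w i s := by
  have h1 : ∑ i ∈ range (s + 1), N i * w (s - i) = ∑ i ∈ range (s + 1), N i * wi w i s := by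
    apply Finset.sum_congr rfl
    intro i hi
    rw [Finset.mem_range] at hi
    unfold wi
    rw [if_pos (by omega)]
  rw [h1]
  apply Finset.sum_subset (Finset.range_mono hT)
  intro i _ hi
  rw [Finset.mem_range] at hi
  unfold wi
  rw [if_neg (by omega), mul_zero]

theorem hIn (hSp : StSp) (hCv : StCv) (hNs : StNs) (hQs : StQs) (hTv : StTv) : StIn := by
  obtain ⟨C, hC, hTv'⟩ := hTv
  obtain ⟨-, -, -, hNs4, -, -, -⟩ := hNs
  obtain ⟨hQ1, -, hQ3, hQ4⟩ := hQs
  refine ⟨16 * C, by positivity, ?_⟩
  intro m n K hm hmn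
  set w : ℕ → ℝ := fun j => qs (n - m) j with hw
  have hw0 : ∀ j, 0 ≤ w j := fun j => qs_nonneg _ _
  have hwz : w 0 = 0 := by
    simp only [hw]
    obtain ⟨k, hk⟩ : ∃ k, n - m = k + 1 := ⟨n - m - 1, by omega⟩
    rw [hk]
    rfl
  set T : ℕ := K + 8 * m + 1 with hTdef
  set ε : ℝ := 1 / 8 ^ m with hε
  have hε0 : 0 ≤ ε := by positivity
  set V : ℝ := 2 * C / Real.sqrt n with hV
  have hn0 : (0 : ℝ) < n := by
    have : 0 < n := by omega
    exact_mod_cast this
  have hsn : 0 < Real.sqrt n := Real.sqrt_pos.2 hn0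
  have hV0 : 0 ≤ V := by positivity
  have htv1 : ∑ s ∈ range K, |w (s + 1) - w s| ≤ V := by
    refine (hTv' (n - m) K (by omega)).trans ?_
    rw [hV]
    have hnm : (n : ℝ) / 4 ≤ ((n - m : ℕ) : ℝ) := by
      rw [div_le_iff₀ (by norm_num)]
      have : n ≤ (n - m) * 4 := by omega
      exact_mod_cast this
    have h1 : Real.sqrt n / 2 ≤ Real.sqrt ((n - m : ℕ) : ℝ) := by
      rw [show Real.sqrt n / 2 = Real.sqrt (n / 4) by
        rw [Real.sqrt_div hn0.le, show (4 : ℝ) = 2 ^ 2 by norm_num, Real.sqrt_sq (by norm_num)]]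
      exact Real.sqrt_le_sqrt hnm
    rw [div_le_div_iff₀ (by linarith [half_pos hsn]) hsn]
    nlinarith
  have htv : ∀ i j, i ≤ 8 * m → j ≤ 8 * m → ∑ s ∈ range K, |wi w i s - wi w j s| ≤
      ((8 * m : ℕ) : ℝ) * V := fun i j hi hj => tv_le w hwz K V hV0 htv1 (8 * m) i j hi hj
  have hmass : ∀ i, ∑ s ∈ range K, wi w i s ≤ 1 := by
    intro i
    refine le_trans ?_ (hQ1 (n - m) K)
    exact sum_shift w hw0 i K
  -- the law of n as a convolution
  have hqn : ∀ s ∈ range K, qs n s = ∑ j ∈ range T, qs m j * wi w j s := by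
    intro s hs
    rw [Finset.mem_range] at hs
    have h1 := hCv.2.1 m (n - m) s
    rw [show m + (n - m) = n by omega] at h1
    rw [h1]
    exact conv_ext w (fun j => qs m j) s T (by omega)
  have hsplit : ∀ g : ℕ → ℝ, ∑ j ∈ range T, g j =
      ∑ j ∈ range (8 * m + 1), g j + ∑ j ∈ Ico (8 * m + 1) T, g j := by
    intro g
    rw [← Finset.sum_range_add_sum_Ico _ (by omega : 8 * m + 1 ≤ T)]
  set σ : ℝ := ∑ j ∈ range (8 * m + 1), qs m j with hσ
  have hσ1 : σ ≤ 1 := hQ1 m _
  have hσ2 : 1 - ε ≤ σ := hQ4 m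
  -- one shift against the law of n
  have hone : ∀ i, i ≤ 8 * m → ∑ s ∈ range K, |wi w i s - qs n s| ≤
      2 * ε + ((8 * m : ℕ) : ℝ) * V := by
    intro i hi
    have h1 : ∀ s ∈ range K, |wi w i s - qs n s| ≤ wi w i s * (1 - σ) +
        ∑ j ∈ range (8 * m + 1), qs m j * |wi w i s - wi w j s| +
        ∑ j ∈ Ico (8 * m + 1) T, qs m j * wi w j s := by
      intro s hs
      have e1 : wi w i s - qs n s = wi w i s * (1 - σ) +
          ∑ j ∈ range (8 * m + 1), qs m j * (wi w i s - wi w j s) -
          ∑ j ∈ Ico (8 * m + 1) T, qs m j * wi w j s := by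
        rw [hqn s hs, hsplit]
        simp only [mul_sub, Finset.sum_sub_distrib, ← Finset.sum_mul]
        rw [← hσ]
        ring
      rw [e1]
      have a1 : |wi w i s * (1 - σ)| = wi w i s * (1 - σ) :=
        abs_of_nonneg (mul_nonneg (wi_nonneg w hw0 i s) (by linarith))
      have a2 : |∑ j ∈ range (8 * m + 1), qs m j * (wi w i s - wi w j s)| ≤
          ∑ j ∈ range (8 * m + 1), qs m j * |wi w i s - wi w j s| := by
        refine (Finset.abs_sum_le_sum_abs _ _).trans (le_of_eq ?_)
        apply Finset.sum_congr rfl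
        intro j _
        rw [abs_mul, abs_of_nonneg (qs_nonneg m j)]
      have a3 : |∑ j ∈ Ico (8 * m + 1) T, qs m j * wi w j s| =
          ∑ j ∈ Ico (8 * m + 1) T, qs m j * wi w j s :=
        abs_of_nonneg (Finset.sum_nonneg (fun j _ => mul_nonneg (qs_nonneg m j) (wi_nonneg w hw0 j s)))
      calc _ ≤ |wi w i s * (1 - σ) + ∑ j ∈ range (8 * m + 1), qs m j * (wi w i s - wi w j s)| +
            |∑ j ∈ Ico (8 * m + 1) T, qs m j * wi w j s| := abs_sub _ _
        _ ≤ |wi w i s * (1 - σ)| + |∑ j ∈ range (8 * m + 1), qs m j * (wi w i s - wi w j s)| +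
            |∑ j ∈ Ico (8 * m + 1) T, qs m j * wi w j s| := by
            have := abs_add_le (wi w i s * (1 - σ))
              (∑ j ∈ range (8 * m + 1), qs m j * (wi w i s - wi w j s))
            linarith
        _ ≤ _ := by rw [a1, a3]; linarith
    refine (Finset.sum_le_sum h1).trans ?_
    rw [Finset.sum_add_distrib, Finset.sum_add_distrib, ← Finset.sum_mul]
    have b1 : (∑ s ∈ range K, wi w i s) * (1 - σ) ≤ ε := by
      have h2 := mul_le_mul_of_nonneg_right (hmass i) (by linarith : (0 : ℝ) ≤ 1 - σ)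
      linarith
    have b2 : ∑ s ∈ range K, ∑ j ∈ range (8 * m + 1), qs m j * |wi w i s - wi w j s| ≤
        ((8 * m : ℕ) : ℝ) * V := by
      rw [Finset.sum_comm]
      have h3 : ∀ j ∈ range (8 * m + 1), ∑ s ∈ range K, qs m j * |wi w i s - wi w j s| ≤
          qs m j * (((8 * m : ℕ) : ℝ) * V) := by
        intro j hj
        rw [Finset.mem_range] at hj
        rw [← Finset.mul_sum]
        exact mul_le_mul_of_nonneg_left (htv i j hi (by omega)) (qs_nonneg m j)
      refine (Finset.sum_le_sum h3).trans ?_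
      rw [← Finset.sum_mul, ← hσ]
      have : 0 ≤ ((8 * m : ℕ) : ℝ) * V := by positivity
      nlinarith
    have b3 : ∑ s ∈ range K, ∑ j ∈ Ico (8 * m + 1) T, qs m j * wi w j s ≤ ε := by
      rw [Finset.sum_comm]
      have h3 : ∀ j ∈ Ico (8 * m + 1) T, ∑ s ∈ range K, qs m j * wi w j s ≤ qs m j := by
        intro j _
        rw [← Finset.mul_sum]
        have := mul_le_mul_of_nonneg_left (hmass j) (qs_nonneg m j)
        linarith
      exact (Finset.sum_le_sum h3).trans (hQ3 m T)
    linarith
  -- the pointwise decomposition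
  have hdec : ∀ s ∈ range K, ∀ M, |ns m n s M - qs n s * pim m M| ≤
      ∑ i ∈ range (8 * m + 1), ns m m i M * |wi w i s - qs n s| +
      ∑ i ∈ Ico (8 * m + 1) T, ns m m i M * wi w i s := by
    intro s hs M
    have hs' := Finset.mem_range.1 hs
    have e1 : ns m n s M = ∑ i ∈ range T, ns m m i M * wi w i s := by
      rw [hSp m m n s M le_rfl (by omega)]
      exact conv_ext w (fun i => ns m m i M) s T (by omega)
    have e2 : ns m n s M - qs n s * pim m M =
        ∑ i ∈ range (8 * m + 1), ns m m i M * (wi w i s - qs n s) +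
        ∑ i ∈ Ico (8 * m + 1) T, ns m m i M * wi w i s := by
      rw [e1, hsplit]
      unfold pim
      rw [Finset.mul_sum]
      simp only [mul_sub, Finset.sum_sub_distrib]
      have : ∀ i, qs n s * ns m m i M = ns m m i M * qs n s := fun i => mul_comm _ _
      simp only [this]
      ring
    rw [e2]
    refine (abs_add_le _ _).trans ?_
    apply add_le_add
    · refine (Finset.abs_sum_le_sum_abs _ _).trans (le_of_eq ?_)
      apply Finset.sum_congr rfl
      intro i _
      rw [abs_mul, abs_of_nonneg (ns_nonneg _ _ _ _)]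
    · rw [abs_of_nonneg]
      exact Finset.sum_nonneg (fun i _ => mul_nonneg (ns_nonneg _ _ _ _) (wi_nonneg w hw0 i s))
  calc ∑ s ∈ range K, ∑ M ∈ range (3 ^ m), |ns m n s M - qs n s * pim m M|
      ≤ ∑ s ∈ range K, ∑ M ∈ range (3 ^ m),
        (∑ i ∈ range (8 * m + 1), ns m m i M * |wi w i s - qs n s| +
        ∑ i ∈ Ico (8 * m + 1) T, ns m m i M * wi w i s) := by
        apply Finset.sum_le_sum
        intro s hs
        apply Finset.sum_le_sum
        intro M _
        exact hdec s hs M
    _ = ∑ i ∈ range (8 * m + 1), qs m i * ∑ s ∈ range K, |wi w i s - qs n s| +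
        ∑ i ∈ Ico (8 * m + 1) T, qs m i * ∑ s ∈ range K, wi w i s := by
        simp only [Finset.sum_add_distrib]
        congr 1
        · have : ∀ s, ∑ M ∈ range (3 ^ m), ∑ i ∈ range (8 * m + 1), ns m m i M * |wi w i s - qs n s| =
              ∑ i ∈ range (8 * m + 1), qs m i * |wi w i s - qs n s| := by
            intro s
            rw [Finset.sum_comm]
            apply Finset.sum_congr rfl
            intro i _
            rw [← Finset.sum_mul, hNs4]
          simp only [this]
          rw [Finset.sum_comm]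
          apply Finset.sum_congr rfl
          intro i _
          rw [Finset.mul_sum]
        · have : ∀ s, ∑ M ∈ range (3 ^ m), ∑ i ∈ Ico (8 * m + 1) T, ns m m i M * wi w i s =
              ∑ i ∈ Ico (8 * m + 1) T, qs m i * wi w i s := by
            intro s
            rw [Finset.sum_comm]
            apply Finset.sum_congr rfl
            intro i _
            rw [← Finset.sum_mul, hNs4]
          simp only [this]
          rw [Finset.sum_comm]
          apply Finset.sum_congr rfl
          intro i _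
          rw [Finset.mul_sum]
    _ ≤ (2 * ε + ((8 * m : ℕ) : ℝ) * V) + ε := by
        apply add_le_add
        · have h3 : ∀ i ∈ range (8 * m + 1), qs m i * ∑ s ∈ range K, |wi w i s - qs n s| ≤
              qs m i * (2 * ε + ((8 * m : ℕ) : ℝ) * V) := by
            intro i hi
            rw [Finset.mem_range] at hi
            exact mul_le_mul_of_nonneg_left (hone i (by omega)) (qs_nonneg m i)
          refine (Finset.sum_le_sum h3).trans ?_
          rw [← Finset.sum_mul, ← hσ]
          have : 0 ≤ 2 * ε + ((8 * m : ℕ) : ℝ) * V := by positivity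
          nlinarith
        · have h3 : ∀ i ∈ Ico (8 * m + 1) T, qs m i * ∑ s ∈ range K, wi w i s ≤ qs m i := by
            intro i _
            have := mul_le_mul_of_nonneg_left (hmass i) (qs_nonneg m i)
            linarith
          exact (Finset.sum_le_sum h3).trans (hQ3 m T)
    _ ≤ 16 * C * m / Real.sqrt n + 4 / 8 ^ m := by
        have e3 : ((8 * m : ℕ) : ℝ) * V = 16 * C * m / Real.sqrt n := by
          rw [hV]
          push_cast
          ring
        have e4 : 4 / (8 : ℝ) ^ m = 4 * ε := by rw [hε]; ring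
        rw [e3, e4]
        linarith

end Pool.Agent.Helper42.ND
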