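import Pool.Agent.Helper76.ND.StD

set_option autoImplicit false

namespace Pool.Agent.Helper42.ND

open Pool.Agent.Helper76.ND Finset

theorem onA (t n : ℕ) (h : (2 : ℝ) ^ t ≤ 3 ^ n) : 200 * t ≤ 317 * n := by
  have h1 : (2 : ℕ) ^ t ≤ 3 ^ n := by exact_mod_cast h
  by_contra hc
  push Not at hc
  have h2 : (2 : ℕ) ^ (317 * n) < 2 ^ (200 * t) := Nat.pow_lt_pow_right (by norm_num) hc
  have h3 : (2 : ℕ) ^ (200 * t) ≤ 3 ^ (200 * n) := by
    calc (2 : ℕ) ^ (200 * t) = (2 ^ t) ^ 200 := by rw [← pow_mul, mul_comm]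
      _ ≤ (3 ^ n) ^ 200 := Nat.pow_le_pow_left h1 200
      _ = 3 ^ (200 * n) := by rw [← pow_mul, mul_comm]
  have h4 : (3 : ℕ) ^ (200 * n) ≤ 2 ^ (317 * n) := by
    calc (3 : ℕ) ^ (200 * n) = (3 ^ 200) ^ n := by rw [← pow_mul]
      _ ≤ (2 ^ 317) ^ n := by
          apply Nat.pow_le_pow_left
          rw [show (317 : ℕ) = 200 + 117 from rfl, pow_add]
          norm_num
      _ = 2 ^ (317 * n) := by rw [← pow_mul]
  exact absurd (h3.trans h4) (not_le.2 h2)

theorem onB (t n : ℕ) (h : 200 * t ≤ 317 * n) :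
    ((5 : ℝ) / 4) ^ t * (2 / 3) ^ n ≤ (19 / 20) ^ n := by
  have h1 : (((5 : ℝ) / 4) ^ t * (2 / 3) ^ n) ^ 200 ≤ ((19 / 20) ^ n) ^ 200 := by
    calc (((5 : ℝ) / 4) ^ t * (2 / 3) ^ n) ^ 200 = (5 / 4) ^ (200 * t) * (2 / 3) ^ (200 * n) := by
          rw [mul_pow, ← pow_mul, ← pow_mul, mul_comm t, mul_comm n]
      _ ≤ (5 / 4) ^ (317 * n) * (2 / 3) ^ (200 * n) := by
          apply mul_le_mul_of_nonneg_right _ (by positivity)
          exact pow_le_pow_right₀ (by norm_num) h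
      _ = ((5 / 4) ^ 317 * (2 / 3) ^ 200) ^ n := by rw [mul_pow, ← pow_mul, ← pow_mul]
      _ ≤ ((19 / 20) ^ 200) ^ n := by
          apply pow_le_pow_left₀ (by positivity)
          rw [show (317 : ℕ) = 200 + 117 from rfl, pow_add]
          norm_num
      _ = ((19 / 20) ^ n) ^ 200 := by rw [← pow_mul, ← pow_mul, mul_comm]
  exact le_of_pow_le_pow_left₀ (by norm_num) (by positivity) h1

/-- `n ^ (-1/200) ≥ 1/n` -/
theorem onC (n : ℕ) (hn : 1 ≤ n) : (1 : ℝ) / n ≤ (n : ℝ) ^ (-(1 / 200) : ℝ) := by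
  have hn' : (1 : ℝ) ≤ n := by exact_mod_cast hn
  rw [one_div, ← Real.rpow_neg_one]
  exact Real.rpow_le_rpow_of_exponent_le hn' (by norm_num)

theorem onD (n : ℕ) (hn : 1 ≤ n) : ((19 : ℝ) / 20) ^ n ≤ 19 * (n : ℝ) ^ (-(1 / 200) : ℝ) := by
  have hn' : (1 : ℝ) ≤ n := by exact_mod_cast hn
  have h1 : 1 + (n : ℝ) * (1 / 19) ≤ (1 + 1 / 19) ^ n :=
    one_add_mul_le_pow (by norm_num) n
  have h2 : ((19 : ℝ) / 20) ^ n * (1 + 1 / 19) ^ n = 1 := by
    rw [← mul_pow]
    norm_num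
  have h3 : ((19 : ℝ) / 20) ^ n ≤ 19 * (1 / n) := by
    have hp : (0 : ℝ) < (19 / 20) ^ n := by positivity
    have h4 : ((19 : ℝ) / 20) ^ n * (n * (1 / 19)) ≤ 1 := by
      calc ((19 : ℝ) / 20) ^ n * (n * (1 / 19)) ≤ (19 / 20) ^ n * (1 + 1 / 19) ^ n := by
            apply mul_le_mul_of_nonneg_left _ hp.le
            linarith
        _ = 1 := h2
    rw [mul_one_div, le_div_iff₀ (by linarith)]
    linarith
  have h5 := onC n hn
  linarith

theorem onE (n : ℕ) (hn : 1 ≤ n) (x : ℝ) (hx : (n : ℝ) / 8000 ≤ x) :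
    Real.exp (-x) ≤ 8000 * (n : ℝ) ^ (-(1 / 200) : ℝ) := by
  have hn' : (1 : ℝ) ≤ n := by exact_mod_cast hn
  have hx0 : 0 < x := by linarith
  have h1 : x ≤ Real.exp x := by
    have := Real.add_one_le_exp x
    linarith
  have h2 : Real.exp (-x) ≤ 1 / x := by
    rw [Real.exp_neg, ← one_div]
    exact one_div_le_one_div_of_le hx0 h1
  have h3 : 1 / x ≤ 8000 * (1 / n) := by
    rw [mul_one_div, div_le_div_iff₀ hx0 (by linarith)]
    linarith
  have h5 := onC n hn
  linarith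

theorem q_nonneg (t k : ℕ) : 0 ≤ q t k := by
  unfold q
  positivity

theorem qs_nonneg : ∀ n s : ℕ, 0 ≤ qs n s
  | 0, 0 => by simp [qs]
  | 0, _ + 1 => by simp [qs]
  | _ + 1, 0 => by simp [qs]
  | n + 1, s + 1 => by
    simp only [qs]
    positivity

/-- sums over `range n` of a function vanishing beyond `t` -/
theorem onF (g : ℕ → ℝ) (hg : ∀ k, 0 ≤ g k) (t n : ℕ) (h0 : ∀ k, t < k → g k = 0)
    (P : ℕ → Prop) [DecidablePred P] :
    ∑ k ∈ (range n).filter P, g k ≤ ∑ k ∈ (range (t + 1)).filter P, g k := by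
  calc ∑ k ∈ (range n).filter P, g k ≤ ∑ k ∈ (range (n + (t + 1))).filter P, g k := by
        apply Finset.sum_le_sum_of_subset_of_nonneg
        · intro k hk
          rw [Finset.mem_filter, Finset.mem_range] at hk ⊢
          exact ⟨by omega, hk.2⟩
        · intro k _ _
          exact hg k
    _ = ∑ k ∈ (range (t + 1)).filter P, g k := by
        symm
        apply Finset.sum_subset
        · intro k hk
          rw [Finset.mem_filter, Finset.mem_range] at hk ⊢
          exact ⟨by omega, hk.2⟩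
        · intro k hk hk'
          apply h0
          rw [Finset.mem_filter, Finset.mem_range] at hk hk'
          by_contra hc
          exact hk' ⟨by omega, hk.2⟩

/-- existence of the level `t` -/
theorem onT (n : ℕ) (hn : 1 ≤ n) : ∃ t : ℕ, 1 ≤ t ∧ 200 * t ≤ 317 * n ∧
    (2 : ℝ) ^ t / 3 ^ n ≤ (n : ℝ) ^ (-(1 / 100) : ℝ) ∧
    (3 : ℝ) ^ n / 2 ^ t ≤ 2 * (n : ℝ) ^ (1 / 100 : ℝ) := by
  have hn' : (1 : ℝ) ≤ n := by exact_mod_cast hn
  have hnp : (0 : ℝ) < n := by linarith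
  have hr1 : (1 : ℝ) ≤ (n : ℝ) ^ (1 / 100 : ℝ) := Real.one_le_rpow hn' (by norm_num)
  have hr2 : (n : ℝ) ^ (1 / 100 : ℝ) ≤ n := by
    calc (n : ℝ) ^ (1 / 100 : ℝ) ≤ (n : ℝ) ^ (1 : ℝ) :=
          Real.rpow_le_rpow_of_exponent_le hn' (by norm_num)
      _ = n := Real.rpow_one _
  have hr0 : (0 : ℝ) < (n : ℝ) ^ (1 / 100 : ℝ) := by linarith
  have hb : (1 : ℝ) + n * 2 ≤ (1 + 2) ^ n := one_add_mul_le_pow (by norm_num) n
  have hb' : (2 : ℝ) * n ≤ 3 ^ n := by
    have : ((1 : ℝ) + 2) ^ n = 3 ^ n := by norm_num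
    rw [this] at hb
    linarith
  have hR : (2 : ℝ) ≤ 3 ^ n / (n : ℝ) ^ (1 / 100 : ℝ) := by
    rw [le_div_iff₀ hr0]
    linarith
  obtain ⟨t, ht1, ht2⟩ := exists_nat_pow_near (x := (3 : ℝ) ^ n / (n : ℝ) ^ (1 / 100 : ℝ))
    (y := (2 : ℝ)) (by linarith) (by norm_num)
  have h3 : (0 : ℝ) < 3 ^ n := by positivity
  have h2t : (0 : ℝ) < 2 ^ t := by positivity
  refine ⟨t, ?_, ?_, ?_, ?_⟩
  · by_contra hc
    have : t = 0 := by omega
    subst this
    norm_num at ht2
    norm_num at hR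
    linarith
  · apply onA
    refine ht1.trans ?_
    rw [div_le_iff₀ hr0]
    nlinarith
  · rw [Real.rpow_neg hnp.le, div_le_iff₀ h3]
    rw [div_eq_mul_inv] at ht1
    linarith
  · rw [div_lt_iff₀ hr0, pow_succ] at ht2
    rw [div_le_iff₀ h2t]
    nlinarith

set_option maxHeartbeats 4000000 in
/-- **On** -/
theorem hOn (hCn : StCn) (hOh : StOh) (hOg : StOg) (hFa : StFa) (hHo : StHo) (hSq : StSq)
    (hGen : StGen) (hNs : StNs) : StOn := by
  obtain ⟨C, hC0, hC⟩ := hOg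
  obtain ⟨C', hC'0, hC'⟩ := hSq
  refine ⟨2 * 19 + 22 + 4 * 8000 + 4 * (C * C'), by positivity, ?_⟩
  intro n e K hn he h17
  have hn' : (1 : ℝ) ≤ n := by exact_mod_cast hn
  have hnp : (0 : ℝ) < n := by linarith
  obtain ⟨t, ht1, ht2, ht3, ht4⟩ := onT n hn
  have htp : (0 : ℝ) < t := by exact_mod_cast (show 0 < t by omega)
  have ht2' : (200 : ℝ) * t ≤ 317 * n := by exact_mod_cast ht2
  set N : ℝ := (n : ℝ) ^ (-(1 / 200) : ℝ) with hN
  have hN0 : 0 < N := Real.rpow_pos_of_pos hnp _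
  have hL : ∑ s ∈ range K, ∑ M ∈ range (3 ^ n), |ns n n s M - ns e n s M / 3 ^ (n - e)| =
      ∑ s ∈ range K, O1 n e (sz n n s) := by
    apply Finset.sum_congr rfl
    intro s _
    exact hCn.1 n e s he
  rw [hL]
  refine (hOh.1 n e t K he).trans ?_
  -- first piece
  have p1 : ∑ s ∈ range (t + 1), qs n s ≤ 19 * N := by
    have hg := hGen n (t + 1) (4 / 5) (by norm_num) (by norm_num)
    have hz : (4 / 5 : ℝ) / (2 - 4 / 5) = 2 / 3 := by norm_num
    rw [hz] at hg
    calc ∑ s ∈ range (t + 1), qs n s ≤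
          ∑ s ∈ range (t + 1), (5 / 4 : ℝ) ^ t * (qs n s * (4 / 5) ^ s) := by
          apply Finset.sum_le_sum
          intro s hs
          rw [Finset.mem_range] at hs
          have h1 : (1 : ℝ) ≤ (5 / 4) ^ t * (4 / 5) ^ s := by
            have e1 : (5 / 4 : ℝ) ^ t = (5 / 4) ^ (t - s) * (5 / 4) ^ s := by
              rw [← pow_add]
              congr 1
              omega
            rw [e1, mul_assoc, ← mul_pow]
            norm_num
            exact one_le_pow₀ (by norm_num)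
          have h2 := qs_nonneg n s
          calc qs n s = qs n s * 1 := by ring
            _ ≤ qs n s * ((5 / 4) ^ t * (4 / 5) ^ s) := mul_le_mul_of_nonneg_left h1 h2
            _ = (5 / 4 : ℝ) ^ t * (qs n s * (4 / 5) ^ s) := by ring
      _ = (5 / 4 : ℝ) ^ t * ∑ s ∈ range (t + 1), qs n s * (4 / 5) ^ s := by
          rw [Finset.mul_sum]
      _ ≤ (5 / 4 : ℝ) ^ t * (2 / 3) ^ n := mul_le_mul_of_nonneg_left hg (by positivity)
      _ ≤ (19 / 20) ^ n := onB t n ht2
      _ ≤ 19 * N := onD n hn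
  -- second piece
  have p2 : (((W t).filter (fun l => 3 ^ n ≤ cc l)).card : ℝ) / 2 ^ t ≤ 11 * N := by
    refine (hFa n t).trans ?_
    apply mul_le_mul_of_nonneg_left _ (by norm_num)
    calc Real.sqrt (2 ^ t / 3 ^ n) ≤ Real.sqrt ((n : ℝ) ^ (-(1 / 100) : ℝ)) :=
          Real.sqrt_le_sqrt ht3
      _ = N := by
          rw [hN, Real.sqrt_eq_rpow, ← Real.rpow_mul hnp.le]
          norm_num
  -- third piece
  set F : ℕ → ℝ := fun k =>
    ∑ s ∈ range (K + 1), O1 n e (Rn n (n - k) s (cg n k t) (3 ^ k * hf n ^ t)) with hF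
  have hF2 : ∀ k, F k ≤ 2 * q t k := fun k => hOh.2 n e t k K _
  have p3 : ∑ k ∈ range n, F k ≤ (4 * 8000 + 4 * (C * C')) * N := by
    classical
    rw [← Finset.sum_filter_add_sum_filter_not (range n)
      (fun k : ℕ => (n : ℝ) / 100 ≤ |(k : ℝ) - t / 2|)]
    have a1 : ∑ k ∈ (range n).filter (fun k : ℕ => (n : ℝ) / 100 ≤ |(k : ℝ) - t / 2|), F k ≤
        4 * 8000 * N := by
      calc ∑ k ∈ (range n).filter (fun k : ℕ => (n : ℝ) / 100 ≤ |(k : ℝ) - t / 2|), F k
          ≤ ∑ k ∈ (range n).filter (fun k : ℕ => (n : ℝ) / 100 ≤ |(k : ℝ) - t / 2|),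
              2 * q t k := Finset.sum_le_sum (fun k _ => hF2 k)
        _ ≤ ∑ k ∈ (range (t + 1)).filter (fun k : ℕ => (n : ℝ) / 100 ≤ |(k : ℝ) - t / 2|),
              2 * q t k := by
            apply onF
            · intro k
              have := q_nonneg t k
              linarith
            · intro k hk
              rw [(hNs.2.2.2.2.2.2 k t 0 hk).2]
              ring
        _ = 2 * ∑ k ∈ (range (t + 1)).filter (fun k : ℕ => (n : ℝ) / 100 ≤ |(k : ℝ) - t / 2|),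
              q t k := by rw [Finset.mul_sum]
        _ ≤ 2 * (2 * Real.exp (-(2 * ((n : ℝ) / 100) ^ 2 / t))) := by
            apply mul_le_mul_of_nonneg_left _ (by norm_num)
            exact hHo t ((n : ℝ) / 100) ht1 (by positivity)
        _ ≤ 2 * (2 * (8000 * N)) := by
            apply mul_le_mul_of_nonneg_left _ (by norm_num)
            apply mul_le_mul_of_nonneg_left _ (by norm_num)
            apply onE n hn
            rw [le_div_iff₀ htp]
            nlinarith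
        _ = 4 * 8000 * N := by ring
    have a2 : ∑ k ∈ (range n).filter (fun k : ℕ => ¬ (n : ℝ) / 100 ≤ |(k : ℝ) - t / 2|), F k ≤
        4 * (C * C') * N := by
      have b1 : ∀ k ∈ (range n).filter (fun k : ℕ => ¬ (n : ℝ) / 100 ≤ |(k : ℝ) - t / 2|),
          F k ≤ C * (n : ℝ) ^ (-(13 / 50) : ℝ) *
            (2 * (n : ℝ) ^ (1 / 200 : ℝ) * Real.sqrt (q t k)) := by
        intro k hk
        rw [Finset.mem_filter, not_le] at hk
        have hk2 := (abs_lt.1 hk.2).2
        have hk3 : (400 : ℝ) * k < 321 * n := by linarith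
        have hk4 : 400 * k < 321 * n := by exact_mod_cast hk3
        have hke : k ≤ e := by omega
        have hk5 : n ≤ 25 * (e - k) := by omega
        refine (hC n e t k K hn he hke hk5).trans ?_
        apply mul_le_mul_of_nonneg_left _ (by positivity)
        rw [Real.sqrt_mul (by positivity)]
        apply mul_le_mul_of_nonneg_right _ (Real.sqrt_nonneg _)
        rw [Real.sqrt_le_left (by positivity)]
        refine ht4.trans ?_
        have e1 : (2 * (n : ℝ) ^ (1 / 200 : ℝ)) ^ 2 = 4 * (n : ℝ) ^ (1 / 100 : ℝ) := by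
          rw [mul_pow, ← Real.rpow_natCast ((n : ℝ) ^ (1 / 200 : ℝ)) 2, ← Real.rpow_mul hnp.le]
          norm_num
        rw [e1]
        have : 0 < (n : ℝ) ^ (1 / 100 : ℝ) := Real.rpow_pos_of_pos hnp _
        linarith
      refine (Finset.sum_le_sum b1).trans ?_
      rw [← Finset.mul_sum, ← Finset.mul_sum]
      have b2 : ∑ k ∈ (range n).filter (fun k : ℕ => ¬ (n : ℝ) / 100 ≤ |(k : ℝ) - t / 2|),
          Real.sqrt (q t k) ≤ 2 * C' * (n : ℝ) ^ (1 / 4 : ℝ) := by
        calc ∑ k ∈ (range n).filter (fun k : ℕ => ¬ (n : ℝ) / 100 ≤ |(k : ℝ) - t / 2|),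
              Real.sqrt (q t k)
            ≤ ∑ k ∈ (range (t + 1)).filter
                (fun k : ℕ => ¬ (n : ℝ) / 100 ≤ |(k : ℝ) - t / 2|), Real.sqrt (q t k) := by
              apply onF
              · intro k
                exact Real.sqrt_nonneg _
              · intro k hk
                rw [(hNs.2.2.2.2.2.2 k t 0 hk).2]
                exact Real.sqrt_zero
          _ ≤ ∑ k ∈ range (t + 1), Real.sqrt (q t k) := by
              apply Finset.sum_le_sum_of_subset_of_nonneg (Finset.filter_subset _ _)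
              intro k _ _
              exact Real.sqrt_nonneg _
          _ ≤ C' * (t : ℝ) ^ (1 / 4 : ℝ) := hC' t ht1
          _ ≤ C' * (2 * (n : ℝ) ^ (1 / 4 : ℝ)) := by
              apply mul_le_mul_of_nonneg_left _ hC'0.le
              calc (t : ℝ) ^ (1 / 4 : ℝ) ≤ ((16 : ℝ) * n) ^ (1 / 4 : ℝ) :=
                    Real.rpow_le_rpow htp.le (by linarith) (by norm_num)
                _ = (16 : ℝ) ^ (1 / 4 : ℝ) * (n : ℝ) ^ (1 / 4 : ℝ) :=
                    Real.mul_rpow (by norm_num) hnp.le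
                _ = 2 * (n : ℝ) ^ (1 / 4 : ℝ) := by
                    have : (16 : ℝ) ^ (1 / 4 : ℝ) = 2 := by
                      rw [show (16 : ℝ) = (2 : ℝ) ^ (4 : ℝ) by norm_num, ← Real.rpow_mul (by norm_num)]
                      norm_num
                    rw [this]
          _ = 2 * C' * (n : ℝ) ^ (1 / 4 : ℝ) := by ring
      have e2 : (n : ℝ) ^ (-(13 / 50) : ℝ) * (n : ℝ) ^ (1 / 200 : ℝ) * (n : ℝ) ^ (1 / 4 : ℝ) =
          N := by
        rw [hN, ← Real.rpow_add hnp, ← Real.rpow_add hnp]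
        norm_num
      have hc1 : 0 < (n : ℝ) ^ (-(13 / 50) : ℝ) := Real.rpow_pos_of_pos hnp _
      have hc2 : 0 < (n : ℝ) ^ (1 / 200 : ℝ) := Real.rpow_pos_of_pos hnp _
      calc C * (n : ℝ) ^ (-(13 / 50) : ℝ) * (2 * (n : ℝ) ^ (1 / 200 : ℝ) *
            ∑ k ∈ (range n).filter (fun k : ℕ => ¬ (n : ℝ) / 100 ≤ |(k : ℝ) - t / 2|),
              Real.sqrt (q t k))
          ≤ C * (n : ℝ) ^ (-(13 / 50) : ℝ) * (2 * (n : ℝ) ^ (1 / 200 : ℝ) *
            (2 * C' * (n : ℝ) ^ (1 / 4 : ℝ))) := by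
            apply mul_le_mul_of_nonneg_left _ (by positivity)
            exact mul_le_mul_of_nonneg_left b2 (by positivity)
        _ = 4 * (C * C') * ((n : ℝ) ^ (-(13 / 50) : ℝ) * (n : ℝ) ^ (1 / 200 : ℝ) *
            (n : ℝ) ^ (1 / 4 : ℝ)) := by ring
        _ = 4 * (C * C') * N := by rw [e2]
    calc _ ≤ 4 * 8000 * N + 4 * (C * C') * N := add_le_add a1 a2
      _ = (4 * 8000 + 4 * (C * C')) * N := by ring
  calc _ ≤ 2 * (19 * N) + (4 * 8000 + 4 * (C * C')) * N + 2 * (11 * N) := by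
        apply add_le_add (add_le_add _ p3)
        · exact mul_le_mul_of_nonneg_left p2 (by norm_num)
        · exact mul_le_mul_of_nonneg_left p1 (by norm_num)
    _ = (2 * 19 + 22 + 4 * 8000 + 4 * (C * C')) * N := by ring

end Pool.Agent.Helper42.ND
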