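import Pool.Agent.Helper76.ND.StD

set_option autoImplicit false

namespace Pool.Agent.Helper42.ND

open Pool.Agent.Helper76.ND Finset

theorem chi_zero (n : ℕ) : chi n 0 = 1 := by
  unfold chi
  rw [ZMod.val_zero, Nat.cast_zero, zero_div, ev_zero]

theorem pars (hYz : StYz) (n : ℕ) (c : ZMod (3 ^ n) → ℝ) :
    ∑ ξ : ZMod (3 ^ n), ‖Fh n c ξ‖ ^ 2 = 3 ^ n * ∑ r, c r ^ 2 := by
  obtain ⟨-, -, -, h4, h5, h6, -, -, h9, -⟩ := hYz
  have hconj : ∀ x : ZMod (3 ^ n), (starRingEnd ℂ) (chi n x) = chi n (-x) := by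
    intro x
    have h1 : chi n x * chi n (-x) = 1 := by rw [← h4, add_neg_cancel, chi_zero]
    have h2 : chi n x * (starRingEnd ℂ) (chi n x) = 1 := by
      rw [Complex.mul_conj, Complex.normSq_eq_norm_sq, h6]
      norm_num
    have h3 : chi n x ≠ 0 := by
      intro h
      rw [h, zero_mul] at h1
      exact zero_ne_one h1
    exact mul_left_cancel₀ h3 (h2.trans h1.symm)
  have horth : ∀ y : ZMod (3 ^ n), ∑ ξ : ZMod (3 ^ n), chi n (ξ * y) =
      if y = 0 then (3 : ℂ) ^ n else 0 := by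
    intro y
    split_ifs with hy
    · subst hy
      simp only [mul_zero, chi_zero, Finset.sum_const, Finset.card_univ, ZMod.card, nsmul_eq_mul,
        mul_one]
      push_cast
      rfl
    · rw [← h9 n y hy]
      apply Finset.sum_congr rfl
      intro ξ _
      rw [mul_comm]
  have hC : ((∑ ξ : ZMod (3 ^ n), ‖Fh n c ξ‖ ^ 2 : ℝ) : ℂ) = ((3 ^ n * ∑ r, c r ^ 2 : ℝ) : ℂ) := by
    push_cast
    have e1 : ∀ ξ : ZMod (3 ^ n), ((‖Fh n c ξ‖ : ℂ)) ^ 2 =
        ∑ r, ∑ r', (c r : ℂ) * c r' * chi n (ξ * (r - r')) := by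
      intro ξ
      have : ((‖Fh n c ξ‖ : ℂ)) ^ 2 = Fh n c ξ * (starRingEnd ℂ) (Fh n c ξ) := by
        rw [Complex.mul_conj, Complex.normSq_eq_norm_sq]
        push_cast
        rfl
      rw [this]
      unfold Fh
      rw [map_sum, Finset.sum_mul_sum]
      apply Finset.sum_congr rfl
      intro r _
      apply Finset.sum_congr rfl
      intro r' _
      rw [map_mul, Complex.conj_ofReal, hconj, sub_eq_add_neg, mul_add, h4, mul_neg]
      ring
    simp only [e1]
    rw [Finset.sum_comm, Finset.mul_sum]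
    apply Finset.sum_congr rfl
    intro r _
    rw [Finset.sum_comm]
    have e2 : ∀ r' : ZMod (3 ^ n), ∑ ξ : ZMod (3 ^ n), (c r : ℂ) * c r' * chi n (ξ * (r - r')) =
        if r' = r then (3 : ℂ) ^ n * (c r : ℂ) ^ 2 else 0 := by
      intro r'
      rw [← Finset.mul_sum, horth]
      by_cases h : r' = r
      · subst h
        simp
        ring
      · rw [if_neg h, if_neg (by intro h'; exact h (sub_eq_zero.1 h').symm), mul_zero]
    simp only [e2]
    rw [Finset.sum_ite_eq' Finset.univ r]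
    simp
  exact_mod_cast hC

theorem hPl (hYz : StYz) : StPl := by
  refine ⟨fun n c => pars hYz n c, ?_⟩
  intro n e c hen
  have hpars := pars hYz n
  obtain ⟨-, -, -, h4, h5, h6, -, -, h9, -⟩ := hYz
  set N : ℕ := 3 ^ (n - e) with hN
  have hN0 : (N : ℂ) ≠ 0 := by
    rw [hN]
    push_cast
    exact pow_ne_zero _ (by norm_num)
  set d : ZMod (3 ^ n) → ℝ := fun r =>
    c r - (∑ j ∈ range (3 ^ (n - e)), c (r + 3 ^ e * (j : ZMod (3 ^ n)))) / 3 ^ (n - e) with hd
  have hO : O1 n e c = ∑ r, |d r| := rfl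
  -- transform of a translate
  have htr : ∀ (a ξ : ZMod (3 ^ n)), ∑ r, (c (r + a) : ℂ) * chi n (ξ * r) =
      Fh n c ξ * chi n (-(ξ * a)) := by
    intro a ξ
    have e1 : ∑ r, (c (r + a) : ℂ) * chi n (ξ * r) = ∑ r, (c r : ℂ) * chi n (ξ * (r - a)) := by
      apply Fintype.sum_equiv (Equiv.addRight a)
      intro r
      simp
    rw [e1]
    unfold Fh
    rw [Finset.sum_mul]
    apply Finset.sum_congr rfl
    intro r _
    rw [mul_sub, sub_eq_add_neg, h4]
    ring
  -- the sum over j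
  have hsumj : ∀ ξ : ZMod (3 ^ n), ∑ j ∈ range N, chi n (-(ξ * (3 ^ e * (j : ZMod (3 ^ n))))) =
      if 3 ^ e * ξ ≠ 0 then 0 else (N : ℂ) := by
    intro ξ
    set x : ZMod (3 ^ n) := -(3 ^ e * ξ) with hx
    have e1 : ∀ j : ℕ, chi n (-(ξ * (3 ^ e * (j : ZMod (3 ^ n))))) = chi n x ^ j := by
      intro j
      rw [← h5]
      congr 1
      rw [hx]
      ring
    simp only [e1]
    split_ifs with hξ
    · have hx0 : x ≠ 0 := by
        rw [hx]
        exact neg_ne_zero.2 hξ
      have hz1 : chi n x ≠ 1 := by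
        intro h1
        have h2 := h9 n x hx0
        have e2 : ∀ r : ZMod (3 ^ n), chi n (x * r) = 1 := by
          intro r
          have : x * r = ((r.val : ℕ) : ZMod (3 ^ n)) * x := by
            rw [ZMod.natCast_val, ZMod.cast_id', id, mul_comm]
          rw [this, h5, h1, one_pow]
        simp only [e2, Finset.sum_const, Finset.card_univ, ZMod.card, nsmul_eq_mul, mul_one] at h2
        push_cast at h2
        exact (pow_ne_zero n (by norm_num : (3 : ℂ) ≠ 0)) h2
      have hzN : chi n x ^ N = 1 := by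
        rw [← h5]
        have : ((N : ℕ) : ZMod (3 ^ n)) * x = 0 := by
          rw [hx, hN]
          have h3 : ((3 ^ n : ℕ) : ZMod (3 ^ n)) = 0 := ZMod.natCast_self _
          have h7 : (3 : ZMod (3 ^ n)) ^ (n - e) * 3 ^ e = 0 := by
            rw [← pow_add, Nat.sub_add_cancel hen]
            exact_mod_cast h3
          push_cast
          rw [mul_neg, ← mul_assoc, h7, zero_mul, neg_zero]
        rw [this, chi_zero]
      have h8 := geom_sum_mul (chi n x) N
      rw [hzN, sub_self] at h8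
      exact (mul_eq_zero.1 h8).resolve_right (sub_ne_zero.2 hz1)
    · push Not at hξ
      have hx0 : x = 0 := by rw [hx, hξ, neg_zero]
      rw [hx0, chi_zero]
      simp
  -- transform of d
  have hFd : ∀ ξ : ZMod (3 ^ n), Fh n d ξ = if 3 ^ e * ξ ≠ 0 then Fh n c ξ else 0 := by
    intro ξ
    have e1 : Fh n d ξ = Fh n c ξ - (∑ j ∈ range N, ∑ r, (c (r + 3 ^ e * (j : ZMod (3 ^ n))) : ℂ) *
        chi n (ξ * r)) / N := by
      unfold Fh
      rw [Finset.sum_comm, Finset.sum_div, ← Finset.sum_sub_distrib]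
      apply Finset.sum_congr rfl
      intro r _
      rw [← Finset.sum_mul]
      simp only [hd]
      rw [hN]
      push_cast
      ring
    have e2 : ∑ j ∈ range N, ∑ r, (c (r + 3 ^ e * (j : ZMod (3 ^ n))) : ℂ) * chi n (ξ * r) =
        Fh n c ξ * ∑ j ∈ range N, chi n (-(ξ * (3 ^ e * (j : ZMod (3 ^ n))))) := by
      rw [Finset.mul_sum]
      apply Finset.sum_congr rfl
      intro j _
      exact htr _ _
    rw [e1, e2, hsumj]
    split_ifs with h
    · simp
    · field_simp
      ring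
  have hsum : ∑ ξ : ZMod (3 ^ n), ‖Fh n d ξ‖ ^ 2 =
      ∑ ξ ∈ univ.filter (fun ξ : ZMod (3 ^ n) => 3 ^ e * ξ ≠ 0), ‖Fh n c ξ‖ ^ 2 := by
    rw [Finset.sum_filter]
    apply Finset.sum_congr rfl
    intro ξ _
    rw [hFd]
    split_ifs
    · rfl
    · simp
  rw [hO, ← hsum, hpars]
  apply Real.le_sqrt_of_sq_le
  have hcs := sq_sum_le_card_mul_sum_sq (s := (univ : Finset (ZMod (3 ^ n)))) (f := fun r => |d r|)
  rw [Finset.card_univ, ZMod.card] at hcs
  simp only [sq_abs] at hcs
  push_cast at hcs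
  exact hcs

end Pool.Agent.Helper42.ND
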