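import Pool.Agent.Helper76.ND.StE

set_option autoImplicit false

namespace Pool.Agent.Helper42.ND

open Pool.Agent.Helper76.ND Finset

theorem sum_inv_sqrt (T : ℕ) : ∑ k ∈ Icc 1 T, 1 / Real.sqrt k ≤ 2 * Real.sqrt T := by
  induction T with
  | zero => simp
  | succ T ih =>
    rw [Finset.sum_Icc_succ_top (by omega)]
    have hT : (0 : ℝ) ≤ T := Nat.cast_nonneg T
    set a := Real.sqrt (T : ℝ) with ha
    set b := Real.sqrt ((T + 1 : ℕ) : ℝ) with hb
    have ha2 : a ^ 2 = T := Real.sq_sqrt hT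
    have hb2 : b ^ 2 = T + 1 := by
      rw [hb, Real.sq_sqrt (Nat.cast_nonneg _)]
      push_cast
      ring
    have hb0 : 0 < b := Real.sqrt_pos.2 (by positivity)
    have h1 : 1 / b ≤ 2 * b - 2 * a := by
      rw [div_le_iff₀ hb0]
      nlinarith [sq_nonneg (a - b)]
    linarith

/-- **Sd** -/
theorem hSd (hMi : StMi) : StSd := by
  obtain ⟨h1, C, hC0, hC⟩ := hMi
  refine ⟨36 + 2 * C, by positivity, ?_⟩
  intro m T hm
  have hm1 : (1 : ℝ) ≤ m := by exact_mod_cast hm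
  have hm0 : (0 : ℝ) < m := by linarith
  have hT0 : (0 : ℝ) ≤ T := Nat.cast_nonneg T
  have hr0 : 0 < (m : ℝ) ^ (-(1 / 200) : ℝ) := Real.rpow_pos_of_pos hm0 _
  -- interchange
  have s1 : ∑ t ∈ range (T + 1), ∑ k ∈ Icc m t, Del m k t ≤
      ∑ k ∈ Icc m T, ∑ t ∈ range (T + 1), Del m k t := by
    rw [Finset.sum_comm (s := Icc m T)]
    apply Finset.sum_le_sum
    intro t ht
    rw [Finset.mem_range] at ht
    apply Finset.sum_le_sum_of_subset_of_nonneg
    · exact Finset.Icc_subset_Icc_right (by omega)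
    · intro k _ _
      exact Del_nonneg m k t
  have s2 : ∀ k ∈ Icc m T, ∑ t ∈ range (T + 1), Del m k t ≤
      (if k ≤ 8 * m then 4 else 0) + (C * (m : ℝ) ^ (-(1 / 200) : ℝ) + C * m * (1 / Real.sqrt k)) := by
    intro k hk
    rw [Finset.mem_Icc] at hk
    have hs : 0 ≤ 1 / Real.sqrt (k : ℝ) := by positivity
    split_ifs with h
    · have h4 := h1 m k (T + 1) hk.1
      have h5 : 0 ≤ C * (m : ℝ) ^ (-(1 / 200) : ℝ) + C * m * (1 / Real.sqrt k) := by positivity
      linarith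
    · have h4 := hC m k (T + 1) hm (by omega)
      have e : C * ((m : ℝ) ^ (-(1 / 200) : ℝ) + m / Real.sqrt k) =
          0 + (C * (m : ℝ) ^ (-(1 / 200) : ℝ) + C * m * (1 / Real.sqrt k)) := by ring
      rw [e] at h4
      exact h4
  refine s1.trans ((Finset.sum_le_sum s2).trans ?_)
  rw [Finset.sum_add_distrib, Finset.sum_add_distrib, ← Finset.mul_sum (Icc m T) _ (C * (m : ℝ))]
  have p1 : ∑ k ∈ Icc m T, (if k ≤ 8 * m then (4 : ℝ) else 0) ≤ 36 * m := by
    rw [← Finset.sum_filter, Finset.sum_const, nsmul_eq_mul]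
    have hc : ((Icc m T).filter (fun k => k ≤ 8 * m)).card ≤ 8 * m + 1 := by
      calc ((Icc m T).filter (fun k => k ≤ 8 * m)).card ≤ (range (8 * m + 1)).card := by
            apply Finset.card_le_card
            intro k hk
            rw [Finset.mem_filter] at hk
            rw [Finset.mem_range]
            omega
        _ = 8 * m + 1 := Finset.card_range _
    have hc' : (((Icc m T).filter (fun k => k ≤ 8 * m)).card : ℝ) ≤ 8 * m + 1 := by
      exact_mod_cast hc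
    linarith
  have p2 : ∑ k ∈ Icc m T, C * (m : ℝ) ^ (-(1 / 200) : ℝ) ≤
      C * (T * (m : ℝ) ^ (-(1 / 200) : ℝ)) := by
    rw [Finset.sum_const, nsmul_eq_mul]
    have hc : (Icc m T).card ≤ T := by
      rw [Nat.card_Icc]
      omega
    have hc' : ((Icc m T).card : ℝ) ≤ T := by exact_mod_cast hc
    have h5 : 0 ≤ C * (m : ℝ) ^ (-(1 / 200) : ℝ) := by positivity
    calc ((Icc m T).card : ℝ) * (C * (m : ℝ) ^ (-(1 / 200) : ℝ))
        ≤ T * (C * (m : ℝ) ^ (-(1 / 200) : ℝ)) := mul_le_mul_of_nonneg_right hc' h5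
      _ = C * (T * (m : ℝ) ^ (-(1 / 200) : ℝ)) := by ring
  have p3 : ∑ k ∈ Icc m T, 1 / Real.sqrt (k : ℝ) ≤ 2 * Real.sqrt T := by
    refine le_trans ?_ (sum_inv_sqrt T)
    apply Finset.sum_le_sum_of_subset_of_nonneg
    · exact Finset.Icc_subset_Icc_left hm
    · intro k _ _
      positivity
  have p4 : C * m * ∑ k ∈ Icc m T, 1 / Real.sqrt (k : ℝ) ≤ 2 * C * (m * Real.sqrt T) := by
    calc C * m * ∑ k ∈ Icc m T, 1 / Real.sqrt (k : ℝ) ≤ C * m * (2 * Real.sqrt T) :=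
          mul_le_mul_of_nonneg_left p3 (by positivity)
      _ = 2 * C * (m * Real.sqrt T) := by ring
  have q1 : 0 ≤ (m : ℝ) * Real.sqrt T := by positivity
  have q2 : 0 ≤ (T : ℝ) * (m : ℝ) ^ (-(1 / 200) : ℝ) := by positivity
  have q3 : 0 ≤ C * ((T : ℝ) * (m : ℝ) ^ (-(1 / 200) : ℝ)) := by positivity
  have q4 : 0 ≤ C * (m : ℝ) := by positivity
  have q5 : 0 ≤ C * ((m : ℝ) * Real.sqrt T) := by positivity
  linarith

end Pool.Agent.Helper42.ND
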