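import Pool.Agent.Helper76.ND.StE

set_option autoImplicit false

namespace Pool.Agent.Helper42.ND

open Pool.Agent.Helper76.ND Finset

theorem tlA : (2 : ℝ) ^ (-(1 / 4) : ℝ) * (1 + (3 : ℝ) ^ (1 / 4 : ℝ)) / 2 ≤
    (3 / 4 : ℝ) ^ (7 / 80 : ℝ) := by
  set a : ℝ := (3 : ℝ) ^ (1 / 4 : ℝ) with ha
  set b : ℝ := (2 : ℝ) ^ (-(1 / 4) : ℝ) with hb
  set c : ℝ := (3 / 4 : ℝ) ^ (7 / 80 : ℝ) with hc
  have ha0 : 0 < a := Real.rpow_pos_of_pos (by norm_num) _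
  have hb0 : 0 < b := Real.rpow_pos_of_pos (by norm_num) _
  have hc0 : 0 < c := Real.rpow_pos_of_pos (by norm_num) _
  have ha4 : a ^ 4 = 3 := by
    rw [ha, ← Real.rpow_natCast, ← Real.rpow_mul (by norm_num)]
    norm_num
  have hb4 : b ^ 4 = 1 / 2 := by
    rw [hb, ← Real.rpow_natCast, ← Real.rpow_mul (by norm_num)]
    norm_num
  have hc80 : c ^ 80 = (3 / 4) ^ 7 := by
    rw [hc, ← Real.rpow_natCast, ← Real.rpow_mul (by norm_num)]
    norm_num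
  have ha1 : a ≤ 131608 / 100000 := by
    have : a ^ 4 ≤ (131608 / 100000 : ℝ) ^ 4 := by
      rw [ha4]
      norm_num
    exact le_of_pow_le_pow_left₀ (by norm_num) (by norm_num) this
  have hb80 : b ^ 80 = (1 / 2) ^ 20 := by
    rw [← hb4, ← pow_mul]
  have h1 : (b * (1 + a) / 2) ^ 80 ≤ c ^ 80 := by
    rw [hc80, div_pow, mul_pow, hb80]
    have h2 : (1 + a) ^ 80 ≤ (1 + 131608 / 100000 : ℝ) ^ 80 :=
      pow_le_pow_left₀ (by positivity) (by linarith) 80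
    calc (1 / 2 : ℝ) ^ 20 * (1 + a) ^ 80 / 2 ^ 80
        ≤ (1 / 2 : ℝ) ^ 20 * (1 + 131608 / 100000 : ℝ) ^ 80 / 2 ^ 80 := by
          apply div_le_div_of_nonneg_right _ (by positivity)
          exact mul_le_mul_of_nonneg_left h2 (by positivity)
      _ ≤ (3 / 4) ^ 7 := by norm_num
  exact le_of_pow_le_pow_left₀ (by norm_num) hc0.le h1

/-- **Tl** -/
theorem hTl (hPo : StPo) : StTl := by
  intro T v hv
  obtain ⟨-, -, -, -, -, -, h7, -, -⟩ := hPo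
  have e1 : ((2 : ℝ) ^ T) ^ (-(1 / 4) : ℝ) = ((2 : ℝ) ^ (-(1 / 4) : ℝ)) ^ T := by
    rw [← Real.rpow_natCast (2 : ℝ) T, ← Real.rpow_mul (by norm_num), mul_comm,
      Real.rpow_mul (by norm_num), Real.rpow_natCast]
  have e2 : ∀ k : ℕ, ((3 : ℝ) ^ k) ^ (-(1 / 4) : ℝ) = (((3 : ℝ) ^ (1 / 4 : ℝ)) ^ k)⁻¹ := by
    intro k
    rw [Real.rpow_neg (by positivity), ← Real.rpow_natCast (3 : ℝ) k,
      ← Real.rpow_mul (by norm_num), mul_comm, Real.rpow_mul (by norm_num), Real.rpow_natCast]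
  have hv0 : 0 < v ^ (-(1 / 4) : ℝ) := Real.rpow_pos_of_pos hv _
  calc ∑ k ∈ range (T + 1), q T k * phi (2 ^ T * v / 3 ^ k)
      ≤ ∑ k ∈ range (T + 1), q T k * (2 ^ T * v / 3 ^ k) ^ (-(1 / 4) : ℝ) := by
        apply Finset.sum_le_sum
        intro k _
        apply mul_le_mul_of_nonneg_left _ (by unfold q; positivity)
        exact h7 _ (by positivity)
    _ = ∑ k ∈ range (T + 1), v ^ (-(1 / 4) : ℝ) * (((2 : ℝ) ^ (-(1 / 4) : ℝ)) ^ T / 2 ^ T) *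
          (((3 : ℝ) ^ (1 / 4 : ℝ)) ^ k * 1 ^ (T - k) * (T.choose k : ℝ)) := by
        apply Finset.sum_congr rfl
        intro k _
        rw [Real.div_rpow (by positivity) (by positivity),
          Real.mul_rpow (by positivity) hv.le, e1, e2, q, one_pow, div_inv_eq_mul]
        ring
    _ = v ^ (-(1 / 4) : ℝ) * (((2 : ℝ) ^ (-(1 / 4) : ℝ)) ^ T / 2 ^ T) *
          ((3 : ℝ) ^ (1 / 4 : ℝ) + 1) ^ T := by
        rw [← Finset.mul_sum, ← add_pow]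
    _ = v ^ (-(1 / 4) : ℝ) *
          ((2 : ℝ) ^ (-(1 / 4) : ℝ) * (1 + (3 : ℝ) ^ (1 / 4 : ℝ)) / 2) ^ T := by
        rw [div_pow, mul_pow, add_comm ((3 : ℝ) ^ (1 / 4 : ℝ)) 1]
        ring
    _ ≤ v ^ (-(1 / 4) : ℝ) * ((3 / 4 : ℝ) ^ (7 / 80 : ℝ)) ^ T := by
        apply mul_le_mul_of_nonneg_left _ hv0.le
        exact pow_le_pow_left₀ (by positivity) tlA T
    _ = v ^ (-(1 / 4) : ℝ) * (3 / 4 : ℝ) ^ (7 * T / 80 : ℝ) := by
        rw [← Real.rpow_natCast, ← Real.rpow_mul (by norm_num)]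
        congr 2
        ring

end Pool.Agent.Helper42.ND
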